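import Pool.Agent.Lib.MP_1a91b9_ntT3.EF.Defs
import Pool.Agent.Lib.MP_1a91b9_ntT3.S8.Units

/-!
# EF, job TOWER: residue degrees and ramification in the towers `TowerK3`

Every step `F'/F` of the tower is Galois of degree `3`, so for a place `w'` of `F'` above `w` the
ramification index and the residue degree divide `3` (`ef_dvd`). Induction on `TowerK3`:
* `tower_res`: the residue degree over `K` is multiplicative in the tower.
* `tower_ram`: the valuation of `1 + 3 ω` at the places above it is not a square; base: `K → F`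
  bijective and the valuation of `1 + 3 ω` is `exp (-1)`; step: `v' (x) = v (x) ^ e` with `e = 1`
  or `3` (if `γ ^ 2 = x ^ 3` then `(γ / x) ^ 2 = x`).
-/

set_option autoImplicit false

namespace Pool.Agent.Lib.MP_1a91b9_ntT3.EF

open NumberField IsDedekindDomain Polynomial WithZero Pool.Agent.Lib.MP_1a91b9_nt
open Pool.Agent.Lib.MP_1a91b9_ntT Pool.Agent.Lib.MP_1a91b9_ntT3.S8

universe u

/-- In a Galois extension the residue degree and the ramification index divide the degree. -/
theorem ef_dvd {F F' : Type*} [Field F] [NumberField F] [Field F'] [NumberField F'] [Algebra F F']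
    [IsGalois F F'] (v : HeightOneSpectrum (𝓞 F)) (w : HeightOneSpectrum (𝓞 F'))
    (h : w.asIdeal.under (𝓞 F) = v.asIdeal) :
    w.asIdeal.inertiaDeg (𝓞 F) ∣ Module.finrank F F' ∧
      v.asIdeal.ramificationIdx' w.asIdeal ∣ Module.finrank F F' := by
  have hvp : v.asIdeal.IsPrime := v.isPrime
  have hvm : v.asIdeal.IsMaximal := v.isMaximal
  have i1 : w.asIdeal.IsPrime := w.isPrime
  have i2 : w.asIdeal.LiesOver v.asIdeal := ⟨h.symm⟩
  have hfund := Ideal.ncard_primesOver_mul_ramificationIdxIn_mul_inertiaDegIn v.asIdeal (𝓞 F')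
    Gal(F'/F)
  rw [IsGalois.card_aut_eq_finrank] at hfund
  have h1 : w.asIdeal.inertiaDeg (𝓞 F) = Ideal.inertiaDegIn v.asIdeal (𝓞 F') :=
    (Ideal.inertiaDegIn_eq_inertiaDeg v.asIdeal w.asIdeal Gal(F'/F)).symm
  have h2 : v.asIdeal.ramificationIdx' w.asIdeal = Ideal.ramificationIdxIn v.asIdeal (𝓞 F') := by
    rw [Ideal.ramificationIdxIn_eq_ramificationIdx v.asIdeal w.asIdeal Gal(F'/F),
      ← Ideal.ramificationIdx'_eq_ramificationIdx v.asIdeal w.asIdeal v.ne_bot]
  rw [h1, h2, ← hfund]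
  constructor
  · exact (Dvd.intro_left _ rfl).mul_left _
  · exact (Dvd.intro _ rfl).mul_left _

/-- The prime of `F` below a prime of `F'`. -/
noncomputable def bel (F : Type*) {F' : Type*} [Field F] [NumberField F] [Field F']
    [NumberField F'] [Algebra F F'] (w : HeightOneSpectrum (𝓞 F')) : HeightOneSpectrum (𝓞 F) :=
  ⟨w.asIdeal.under (𝓞 F), inferInstance, by
    have := w.ne_bot
    exact Ideal.under_ne_bot _ this⟩

theorem val_bel {F F' : Type*} [Field F] [NumberField F] [Field F'] [NumberField F']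
    [Algebra F F'] (w : HeightOneSpectrum (𝓞 F')) (x : F) :
    (bel F w).valuation F x ^ (bel F w).asIdeal.ramificationIdx' w.asIdeal =
      w.valuation F' (algebraMap F F' x) := by
  have hlo : w.asIdeal.LiesOver (bel F w).asIdeal := ⟨rfl⟩
  have hns : NoZeroSMulDivisors (𝓞 F) (𝓞 F') := ⟨fun {a b} hab => by
    rw [Algebra.smul_def] at hab
    rcases mul_eq_zero.mp hab with h | h
    · exact Or.inl ((map_eq_zero_iff _ (FaithfulSMul.algebraMap_injective _ _)).mp h)
    · exact Or.inr h⟩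
  exact HeightOneSpectrum.valuation_liesOver (K := F) F' (bel F w) w x

theorem galois_of_bij {F F' : Type*} [Field F] [Field F'] [Algebra F F']
    (h : Function.Bijective (algebraMap F F')) : IsGalois F F' ∧ Module.finrank F F' = 1 := by
  let e : F ≃ₐ[F] F' := AlgEquiv.ofBijective (Algebra.ofId F F') h
  refine ⟨IsGalois.of_algEquiv e, ?_⟩
  rw [← e.toLinearEquiv.finrank_eq, Module.finrank_self]

/-- The residue degrees are powers of `3`. -/
theorem tower_res (F : Type u) [Field F] [NumberField F] [Algebra K F] (h : TowerK3 F)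
    (w : HeightOneSpectrum (𝓞 F)) : ∃ n : ℕ, w.asIdeal.inertiaDeg (𝓞 K) = 3 ^ n := by
  induction h with
  | base F hb =>
    obtain ⟨hG, h1⟩ := galois_of_bij hb
    have h2 := (ef_dvd (bel K w) w rfl).1
    rw [h1, Nat.dvd_one] at h2
    exact ⟨0, by rw [h2, pow_zero]⟩
  | step F F' hG hr hu ha hF ih =>
    obtain ⟨n, hn⟩ := ih (bel F w)
    have h2 := (ef_dvd (bel F w) w rfl).1
    rw [hr] at h2
    have hlo : w.asIdeal.LiesOver (bel F w).asIdeal := ⟨rfl⟩
    have h3 := Ideal.inertiaDeg_tower (R := 𝓞 K) (bel F w).asIdeal w.asIdeal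
    rw [hn] at h3
    rcases (Nat.dvd_prime Nat.prime_three).1 h2 with h4 | h4
    · exact ⟨n, by rw [h3, h4, mul_one]⟩
    · exact ⟨n + 1, by rw [h3, h4, pow_succ]⟩

theorem unit_pow_six (u : (𝓞 K)ˣ) : (u : 𝓞 K) ^ 6 = 1 := by
  have h := omO_sq
  have h3 : omO ^ 3 = 1 := by linear_combination (omO - 1) * h
  have h6 : omO ^ 6 = 1 := by linear_combination (omO ^ 3 + 1) * h3
  rcases unit_cases u with h | h | h | h | h | h <;> rw [h]
  · ring
  · ring
  · exact h6
  · linear_combination h6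
  · linear_combination (omO ^ 6 + 1) * h6
  · linear_combination (omO ^ 6 + 1) * h6

theorem conj_not_unit : ¬ IsUnit (-3 - omO) := by
  rintro ⟨u, hu⟩
  have h1 := unit_pow_six u
  rw [hu] at h1
  have h2 : (36 + 360 * omO : 𝓞 K) = 0 := by
    linear_combination h1 - (omO ^ 4 + 17 * omO ^ 3 + 117 * omO ^ 2 + 406 * omO + 692) * omO_sq
  have h3 : (36 + 360 * om : K) = 0 := by
    have h4 := congrArg (algebraMap (𝓞 K) K) h2
    rw [map_add, map_mul, map_ofNat, map_ofNat, map_zero] at h4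
    exact h4
  have h5 : om = -1 / 10 := by linear_combination h3 / 360
  have h6 := om_sq
  rw [h5] at h6
  norm_num at h6

/-- The valuation of `1 + 3 ω` in `K`. -/
theorem val_vp (v : HeightOneSpectrum (𝓞 K)) (hv : vp ∈ v.asIdeal) :
    v.valuation K ((vp : 𝓞 K) : K) = exp (-1 : ℤ) := by
  have h7 : (7 : 𝓞 K) = (-3 - omO) * piO := by
    rw [piO]
    linear_combination omO_sq
  have hp : piO ∈ v.asIdeal := by
    rw [piO_eq]
    exact Ideal.mul_mem_left _ _ hv
  have hN : Ideal.absNorm (Ideal.span {(-3 - omO : 𝓞 K)}) * Ideal.absNorm (Ideal.span {piO}) =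
      7 ^ 2 := by
    rw [← S4.u4_absNorm_p (K := K) 7, ← map_mul, Ideal.span_singleton_mul_span_singleton, ← h7]
    norm_num
  have hc1 : Ideal.absNorm (Ideal.span {(-3 - omO : 𝓞 K)}) ≠ 1 := by
    rw [Ne, Ideal.absNorm_eq_one_iff, Ideal.span_singleton_eq_top]
    exact conj_not_unit
  have hd : Ideal.absNorm (Ideal.span {piO}) ∣ 7 := by
    have hd2 : Ideal.absNorm (Ideal.span {(-3 - omO : 𝓞 K)}) ∣ 7 ^ 2 := ⟨_, hN.symm⟩
    obtain ⟨k, hk, hk2⟩ := (Nat.dvd_prime_pow (by norm_num : Nat.Prime 7)).1 hd2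
    have hk0 : k ≠ 0 := by
      rintro rfl
      exact hc1 hk2
    rw [hk2] at hN
    interval_cases k
    · exact absurd rfl hk0
    · exact ⟨1, by omega⟩
    · exact ⟨7, by omega⟩
  have hnotsq : vp ∉ v.asIdeal ^ 2 := by
    intro hsq
    have hp2 : piO ∈ v.asIdeal ^ 2 := by
      rw [piO_eq]
      exact Ideal.mul_mem_left _ _ hsq
    have h1 : v.asIdeal ^ 2 ∣ Ideal.span {piO} := by
      rw [Ideal.dvd_iff_le, Ideal.span_singleton_le_iff_mem]
      exact hp2
    have h2 : Ideal.absNorm v.asIdeal ^ 2 ∣ 7 := by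
      rw [← map_pow]
      exact (Ideal.absNorm_dvd_absNorm_of_le (Ideal.dvd_iff_le.1 h1)).trans hd
    have h3 : Ideal.absNorm v.asIdeal ≠ 1 := by
      rw [Ne, Ideal.absNorm_eq_one_iff]
      exact v.isPrime.ne_top
    rcases (Nat.dvd_prime (by norm_num : Nat.Prime 7)).1 h2 with h4 | h4
    · exact h3 (by nlinarith [Nat.zero_le (Ideal.absNorm v.asIdeal)])
    · have h5 : Ideal.absNorm v.asIdeal ≤ 2 := by nlinarith
      interval_cases (Ideal.absNorm v.asIdeal) <;> omega
  have hval : v.intValuation vp = exp (-1 : ℤ) := by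
    have h1 : v.intValuation vp ≤ exp (-(1 : ℕ) : ℤ) := by
      rw [HeightOneSpectrum.intValuation_le_pow_iff_mem, pow_one]
      exact hv
    have h2 : ¬ v.intValuation vp ≤ exp (-(2 : ℕ) : ℤ) := by
      rw [HeightOneSpectrum.intValuation_le_pow_iff_mem]
      exact hnotsq
    have h0 : v.intValuation vp ≠ 0 := by
      intro h0
      apply h2
      rw [h0]
      exact zero_le
    obtain ⟨n, hn⟩ : ∃ n : ℤ, v.intValuation vp = exp n := ⟨log _, (exp_log h0).symm⟩
    rw [hn] at h1 h2 ⊢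
    rw [exp_le_exp] at h1 h2
    congr 1
    push_cast at h1 h2
    omega
  rw [← hval, ← HeightOneSpectrum.valuation_of_algebraMap (K := K)]

/-- The valuation of `1 + 3 ω` is not a square at the places above it. -/
theorem tower_ram (F : Type u) [Field F] [NumberField F] [Algebra K F] (h : TowerK3 F)
    (w : HeightOneSpectrum (𝓞 F)) (hw : algebraMap (𝓞 K) (𝓞 F) vp ∈ w.asIdeal) (γ : ℤᵐ⁰) :
    γ ^ 2 ≠ w.valuation F (algebraMap K F (vp : K)) := by
  have hvp0 : ((vp : 𝓞 K) : K) ≠ 0 := by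
    intro h0
    obtain ⟨v, hv⟩ := exists_piPlace
    have hvp : vp ∈ v.asIdeal := by
      rw [vp_eq]
      exact Ideal.mul_mem_left _ _ hv
    have h1 := val_vp v hvp
    rw [h0, map_zero] at h1
    exact exp_ne_zero h1.symm
  induction h generalizing γ with
  | base F hb =>
    obtain ⟨hG, h1⟩ := galois_of_bij hb
    have h2 := (ef_dvd (bel K w) w rfl).2
    rw [h1, Nat.dvd_one] at h2
    rw [← val_bel w, h2, pow_one, val_vp (bel K w) hw]
    intro hγ
    have hγ0 : γ ≠ 0 := by
      rintro rfl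
      rw [zero_pow (by norm_num)] at hγ
      exact exp_ne_zero hγ.symm
    obtain ⟨n, rfl⟩ : ∃ n : ℤ, γ = exp n := ⟨log γ, (exp_log hγ0).symm⟩
    rw [← exp_nsmul, exp_inj] at hγ
    simp at hγ
    omega
  | step F F' hG hr hu ha hF ih =>
    have h2 := (ef_dvd (bel F w) w rfl).2
    rw [hr] at h2
    have hw' : algebraMap (𝓞 K) (𝓞 F) vp ∈ (bel F w).asIdeal := by
      change algebraMap (𝓞 F) (𝓞 F') (algebraMap (𝓞 K) (𝓞 F) vp) ∈ w.asIdeal
      rw [algebraMap_tower]
      exact hw
    have h3 := fun γ => ih (bel F w) hw' γ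
    rw [IsScalarTower.algebraMap_apply K F F', ← val_bel w]
    have hx0 : (bel F w).valuation F (algebraMap K F (vp : K)) ≠ 0 := by
      rw [Valuation.ne_zero_iff]
      exact (_root_.map_ne_zero _).2 hvp0
    set x := (bel F w).valuation F (algebraMap K F (vp : K)) with hx
    rcases (Nat.dvd_prime Nat.prime_three).1 h2 with h4 | h4
    · rw [h4, pow_one]
      exact h3 γ
    · rw [h4]
      intro hγ
      apply h3 (γ * x⁻¹)
      rw [mul_pow, inv_pow, hγ, pow_succ, mul_comm (x ^ 2), mul_assoc,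
        mul_inv_cancel₀ (pow_ne_zero 2 hx0), mul_one]

end Pool.Agent.Lib.MP_1a91b9_ntT3.EF
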