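import Pool.Agent.Lib.MP_1a91b9_ntT3.EF.Defs

/-!
# EF, job BAD: additive reduction of `E49` at the places above `1 + 3 ω`

Model: `S4.localPolynomial_fermatCubic_three` (`S4/Add.lean`) and `S4.locPoly_fermatCubic_three`
(`S4/Place.lean`). Let `R` = the valuation ring, `v` its valuation, `W = W49 (…)` over the completion
(`E49_eq`, `W49_map`). The minimal model is `C • W`; `c₄(C • W) = u⁻⁴ c₄(W) = 0` (`W49_c₄`), so no
multiplicative reduction. Good reduction would give `v(Δ(C • W)) = 1`, `Δ(C • W) = u⁻¹² (1+3ω)²`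
(`W49_delta`), so `v(u) ^ 12 = v(1+3ω) ^ 2`, hence `(v(u)³) ^ 2 = v(u) ^ 6 = v(1+3ω)`, against the hypothesis
(transfer of the hypothesis from `w.valuation F` to the valuation of `R` as in
`locPoly_fermatCubic_three`). So the local polynomial is `1`.
-/

set_option autoImplicit false

namespace Pool.Agent.Lib.MP_1a91b9_ntT3.EF

open NumberField IsDedekindDomain Polynomial WithZero Pool.Agent.Lib.MP_1a91b9_nt
open Pool.Agent.Lib.MP_1a91b9_ntT

private theorem Bad_local (R : Type*) [CommRing R] [IsDomain R] [IsDiscreteValuationRing R]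
    {L : Type*} [Field L] [Algebra R L] [IsFractionRing R L] (o : L)
    (ho : o ^ 2 + o + 1 = 0)
    (h : ∀ t : L, (IsDiscreteValuationRing.maximalIdeal R).valuation L t ^ 2 ≠
      (IsDiscreteValuationRing.maximalIdeal R).valuation L (1 + 3 * o)) :
    (W49 o).localPolynomial R = 1 := by
  classical
  set v := (IsDiscreteValuationRing.maximalIdeal R).valuation L with hv
  obtain ⟨C, hC⟩ : ∃ C : WeierstrassCurve.VariableChange L,
    (W49 o).minimal R = C • W49 o := ⟨_, rfl⟩
  have hc4 : ((W49 o).minimal R).c₄ = 0 := by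
    rw [hC, WeierstrassCurve.variableChange_c₄, W49_c₄ o ho, mul_zero]
  have hmult : ¬ ((W49 o).minimal R).HasMultiplicativeReduction R := by
    intro hm
    have := hm.multiplicativeReduction
    rw [hc4, map_zero] at this
    exact zero_ne_one this
  have hsplit : ¬ ((W49 o).minimal R).HasSplitMultiplicativeReduction R := fun hm =>
    hmult hm.toHasMultiplicativeReduction
  have hgood : ¬ ((W49 o).minimal R).HasGoodReduction R := by
    intro hg
    have h1 := hg.goodReduction
    rw [hC, WeierstrassCurve.variableChange_Δ, W49_delta o ho] at h1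
    set u : L := (C.u : L) with hu
    have hu0 : u ≠ 0 := C.u.ne_zero
    have hui : ((C.u⁻¹ : Lˣ) : L) = u⁻¹ := by rw [hu, Units.val_inv_eq_inv_val]
    rw [hui] at h1
    have hvu : v u ≠ 0 := (Valuation.ne_zero_iff v).mpr hu0
    have h2 : v u ^ 12 = v (1 + 3 * o) ^ 2 := by
      have e : v (u⁻¹ ^ 12 * (1 + 3 * o) ^ 2) = (v u ^ 12)⁻¹ * v (1 + 3 * o) ^ 2 := by
        rw [map_mul, map_pow, map_inv₀, map_pow, inv_pow]
      rw [e] at h1
      rw [inv_mul_eq_one₀ (pow_ne_zero _ hvu)] at h1
      exact h1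
    have h3 : v u ^ 6 = v (1 + 3 * o) := by
      have e : (v u ^ 6) ^ 2 = v (1 + 3 * o) ^ 2 := by rw [← pow_mul]; exact h2
      exact (pow_left_inj₀ (zero_le) (zero_le) (by norm_num)).mp e
    apply h (u ^ 3)
    rw [map_pow, ← pow_mul]
    exact h3
  unfold WeierstrassCurve.localPolynomial
  simp only [hgood, hmult, hsplit, if_false]

section
variable {F : Type*} [Field F] [NumberField F] [Algebra K F]

/-- The local polynomial at a place above `1 + 3 ω` of odd ramification index. -/
theorem locPoly_bad (w : HeightOneSpectrum (𝓞 F))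
    (h : ∀ γ : ℤᵐ⁰, γ ^ 2 ≠ w.valuation F (algebraMap K F (vp : K))) :
    locPoly (E49 F) w = 1 := by
  have ho : (algebraMap F (w.adicCompletion F) (algebraMap K F om)) ^ 2 +
      algebraMap F (w.adicCompletion F) (algebraMap K F om) + 1 = 0 := by
    have h1 : om ^ 2 + om + 1 = 0 := by
      have h2 := congrArg (algebraMap (𝓞 K) K) omO_eq
      rw [map_add, map_add, map_pow, map_one, map_zero] at h2
      exact h2
    rw [← map_pow, ← map_pow, ← map_add, ← map_add, ← map_one (algebraMap F (w.adicCompletion F)),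
      ← map_one (algebraMap K F), ← map_add, ← map_add, h1, map_zero, map_zero]
  have e : (E49 F).baseChange (w.adicCompletion F) =
      W49 (algebraMap F (w.adicCompletion F) (algebraMap K F om)) := by
    rw [E49_eq]
    exact W49_map _ _
  unfold locPoly
  rw [e]
  set R := w.adicCompletionIntegers F
  set o := algebraMap F (w.adicCompletion F) (algebraMap K F om) with hodef
  set v := (IsDiscreteValuationRing.maximalIdeal R).valuation (w.adicCompletion F) with hv
  have hvp : algebraMap F (w.adicCompletion F) (algebraMap K F (vp : K)) = 1 + 3 * o := by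
    have h1 : (vp : K) = 1 + 3 * om := by
      change algebraMap (𝓞 K) K vp = 1 + 3 * om
      unfold vp
      rw [map_add, map_mul, map_one, map_ofNat]
      rfl
    rw [h1, map_add, map_mul, map_one, map_ofNat, map_add, map_mul, map_one, map_ofNat]
  have hval : (Valued.v (1 + 3 * o) : ℤᵐ⁰) = w.valuation F (algebraMap K F (vp : K)) := by
    rw [← valued_algebraMap w, hvp]
  refine Bad_local R o ho ?_
  intro t ht
  have h30 : (1 + 3 * o) ≠ 0 := by
    intro h0
    rw [h0, map_zero] at hval
    exact h 0 (by rw [← hval]; exact zero_pow two_ne_zero)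
  have ht1 : v (t ^ 2 / (1 + 3 * o)) = 1 := by
    rw [map_div₀, map_pow, ht, div_self]
    exact (Valuation.ne_zero_iff v).mpr h30
  have ht2 : v ((t ^ 2 / (1 + 3 * o))⁻¹) = 1 := by rw [map_inv₀, ht1, inv_one]
  obtain ⟨a, ha⟩ := IsDiscreteValuationRing.exists_lift_of_le_one (A := R) ht1.le
  obtain ⟨b, hb⟩ := IsDiscreteValuationRing.exists_lift_of_le_one (A := R) ht2.le
  have ha1 : Valued.v (t ^ 2 / (1 + 3 * o)) ≤ (1 : ℤᵐ⁰) := by rw [← ha]; exact a.2
  have hb1 : Valued.v ((t ^ 2 / (1 + 3 * o))⁻¹) ≤ (1 : ℤᵐ⁰) := by rw [← hb]; exact b.2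
  have hne : (Valued.v (1 + 3 * o) : ℤᵐ⁰) ≠ 0 := (Valuation.ne_zero_iff _).mpr h30
  have h0 : (Valued.v (t ^ 2 / (1 + 3 * o)) : ℤᵐ⁰) ≠ 0 := by
    intro h0
    rw [Valuation.zero_iff] at h0
    rw [h0, map_zero] at ht1
    exact zero_ne_one ht1
  have h1 : (Valued.v (t ^ 2 / (1 + 3 * o)) : ℤᵐ⁰) = 1 := by
    refine le_antisymm ha1 ?_
    rw [map_inv₀] at hb1
    exact (inv_le_one₀ (zero_lt_iff.mpr h0)).mp hb1
  rw [map_div₀, map_pow, div_eq_one_iff_eq hne, hval] at h1
  exact h _ h1

end

end Pool.Agent.Lib.MP_1a91b9_ntT3.EF
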