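import Pool.Agent.Lib.MP_1a91b9_ntT3.EF.Defs

/-!
# EF, job CNT: the number of points of `W49` over a finite field of characteristic prime to `6`

`y² + w y = x³ + (1+2w) x² - x` with `w² + w + 1 = 0`. Put `l = 1 + 2w` (`l² = -3`), `X = x + l/3`,
`Y = 2y + w`. Then `Y² - c = 4 X³` with `c = (1 + 2w)(1 + 3w)/9 = (1+3w) / l³` (check: `4x³ + 4 l x² -
4x + w² = 4X³ + (4/9) l + w²` and `(4/9) l + w² = (-5-w)/9 = l (1+3w)/9`). All affine points are
nonsingular since `Δ = (1+3w)² ≠ 0` (`W49_delta`). So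
`# = 1 + Σ_Y #{X : X³ = (Y² - c)/4} = 1 + Σ_Y (1 + χ((Y²-c)/4) + χ⁻¹((Y²-c)/4))`
(`S4.u4_cube_count`; model of the whole computation: `S4.u4_card_point`,
`S4.card_fermatCubic_of_one` in `S4/Count.lean`). For a cubic character `ψ` put
`T(c) = Σ_Y ψ((Y² - c)/4)`. With `u = Y²` (`quadraticChar_card_sqrts`) and `Σ_u ψ((u-c)/4) = 0`:
`T(c) = Σ_u ρ(u) ψ((u - c)/4) = ρ(c) ψ(c) Σ_t ρ(t) ψ((t - 1)/4)` (`u = c t`), so
`T(c) = ρ(c) ψ(c) T(1)`, and `T(1) = Σ_y ψ(y² + y) = J(ψ, ψ)` (`Y = 2y + 1`; see the proof of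
`card_fermatCubic_of_one`). Finally `ψ(c) = ψ(1 + 3w)` (`ψ(l³) = 1`) and `ρ(c) = ρ((1+2w)(1+3w)) = e`
(`c` is `(1+2w)(1+3w)` times the square of `1/3`).
-/

set_option autoImplicit false

namespace Pool.Agent.Lib.MP_1a91b9_ntT3.EF

open Pool.Agent.Lib.MP_1a91b9_ntT

theorem CNT_card_point {k : Type*} [Field k] [Fintype k] [DecidableEq k] (w : k)
    (hw : w ^ 2 + w + 1 = 0) (h7 : 1 + 3 * w ≠ 0) :
    Nat.card (W49 w).toAffine.Point =
      1 + ∑ y : k, (Finset.univ.filter fun x : k =>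
        x ^ 3 + (1 + 2 * w) * x ^ 2 - x = y ^ 2 + w * y).card := by
  classical
  have hns : ∀ p : k × k, (W49 w).toAffine.Nonsingular p.1 p.2 ↔
      p.1 ^ 3 + (1 + 2 * w) * p.1 ^ 2 - p.1 = p.2 ^ 2 + w * p.2 := by
    intro p
    have hell : (W49 w).Δ ≠ 0 := by
      rw [W49_delta w hw]
      exact pow_ne_zero 2 h7
    have hE : (W49 w).IsElliptic := ⟨isUnit_iff_ne_zero.mpr hell⟩
    rw [← WeierstrassCurve.Affine.equation_iff_nonsingular,
      WeierstrassCurve.Affine.equation_iff]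
    simp only [W49, WeierstrassCurve.toAffine]
    constructor
    · intro h
      linear_combination -h
    · intro h
      linear_combination -h
  rw [Nat.card_congr (Pool.Agent.Lib.MP_1a91b9_nt.pointEquivOption _), Finite.card_option,
    add_comm]
  congr 1
  rw [Nat.card_eq_fintype_card, Fintype.card_subtype]
  have e1 : (Finset.univ.filter fun p : k × k => (W49 w).toAffine.Nonsingular p.1 p.2) =
      Finset.univ.filter fun p : k × k =>
        p.1 ^ 3 + (1 + 2 * w) * p.1 ^ 2 - p.1 = p.2 ^ 2 + w * p.2 :=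
    Finset.filter_congr fun p _ => hns p
  rw [e1, Finset.card_eq_sum_card_fiberwise (f := Prod.snd) (t := Finset.univ)
    (fun _ _ => Finset.mem_coe.mpr (Finset.mem_univ _))]
  refine Finset.sum_congr rfl fun y _ => ?_
  refine Finset.card_bij (fun p _ => p.1) ?_ ?_ ?_
  · rintro ⟨a, b⟩ hp
    simp only [Finset.mem_filter, Finset.mem_univ, true_and] at hp ⊢
    obtain ⟨h1, rfl⟩ := hp
    exact h1
  · rintro ⟨a, b⟩ hp ⟨a', b'⟩ hp' h
    simp only [Finset.mem_filter, Finset.mem_univ, true_and] at hp hp' h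
    rw [Prod.mk.injEq]
    exact ⟨h, hp.2.trans hp'.2.symm⟩
  · intro a ha
    simp only [Finset.mem_filter, Finset.mem_univ, true_and] at ha
    exact ⟨(a, y), by simpa using ha, rfl⟩

theorem CNT_shift {k : Type*} [Field k] [Fintype k] (h2 : (2 : k) ≠ 0) (w : k) (f : k → ℂ) :
    ∑ y : k, f (2 * y + w) = ∑ z : k, f z := by
  have hb : Function.Bijective (fun y : k => 2 * y + w) := by
    rw [← Finite.injective_iff_bijective]
    intro a b h
    exact mul_left_cancel₀ h2 (add_right_cancel h)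
  exact hb.sum_comp f

theorem CNT_sq {k : Type*} [Field k] [Fintype k] [DecidableEq k] (hchar : ringChar k ≠ 2)
    (f : k → ℂ) :
    ∑ y : k, f (y ^ 2) = ∑ u : k, (((quadraticChar k u : ℤ) : ℂ) + 1) * f u := by
  rw [← Finset.sum_fiberwise' Finset.univ (fun y : k => y ^ 2) f]
  refine Finset.sum_congr rfl fun u _ => ?_
  rw [Finset.sum_const, nsmul_eq_mul]
  congr 1
  have h1 := quadraticChar_card_sqrts hchar u
  have h2 : (Set.toFinset {x : k | x ^ 2 = u}) = Finset.univ.filter (fun y : k => y ^ 2 = u) := by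
    ext x
    simp
  rw [h2] at h1
  exact_mod_cast h1

theorem CNT_sum0 {k : Type*} [Field k] [Fintype k] (h2 : (2 : k) ≠ 0) {ψ : MulChar k ℂ}
    (hψ : ψ ≠ 1) (c : k) : ∑ u : k, ψ ((u - c) / 4) = 0 := by
  have h4 : (4 : k) ≠ 0 := by
    have : (4 : k) = 2 * 2 := by norm_num
    rw [this]
    exact mul_ne_zero h2 h2
  have hb : Function.Bijective (fun u : k => (u - c) / 4) := by
    rw [← Finite.injective_iff_bijective]
    intro a b h
    have h1 := (div_left_inj' h4).mp h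
    exact sub_left_injective h1
  rw [hb.sum_comp (fun z => ψ z)]
  exact MulChar.sum_eq_zero_of_ne_one hψ

theorem CNT_T {k : Type*} [Field k] [Fintype k] [DecidableEq k] (hchar : ringChar k ≠ 2)
    (h2 : (2 : k) ≠ 0) {ψ : MulChar k ℂ} (hψ : ψ ≠ 1) {c : k} (hc : c ≠ 0) :
    ∑ z : k, ψ ((z ^ 2 - c) / 4) =
      ((quadraticChar k c : ℤ) : ℂ) * ψ c * ∑ z : k, ψ ((z ^ 2 - 1) / 4) := by
  have key : ∀ c' : k, ∑ z : k, ψ ((z ^ 2 - c') / 4) =
      ∑ u : k, ((quadraticChar k u : ℤ) : ℂ) * ψ ((u - c') / 4) := by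
    intro c'
    rw [CNT_sq hchar (fun u => ψ ((u - c') / 4))]
    simp_rw [add_mul, one_mul]
    rw [Finset.sum_add_distrib, CNT_sum0 h2 hψ, add_zero]
  rw [key c, key 1, Finset.mul_sum]
  have hb : Function.Bijective (fun t : k => c * t) := by
    rw [← Finite.injective_iff_bijective]
    intro a b h
    exact mul_left_cancel₀ hc h
  rw [← hb.sum_comp (fun u => ((quadraticChar k u : ℤ) : ℂ) * ψ ((u - c) / 4))]
  refine Finset.sum_congr rfl fun t _ => ?_
  have e1 : (c * t - c) / 4 = c * ((t - 1) / 4) := by ring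
  rw [e1, map_mul, map_mul]
  push_cast
  ring

theorem CNT_J {k : Type*} [Field k] [Fintype k] [DecidableEq k] (h2 : (2 : k) ≠ 0)
    {ψ : MulChar k ℂ} (hψ : ψ ^ 3 = 1) :
    ∑ z : k, ψ ((z ^ 2 - 1) / 4) = jacobiSum ψ ψ := by
  have h4 : (4 : k) ≠ 0 := by
    have : (4 : k) = 2 * 2 := by norm_num
    rw [this]
    exact mul_ne_zero h2 h2
  have hm1 : ψ (-1) = 1 := by
    have e : ψ (-1) = (ψ ^ 3) (-1) := by
      rw [MulChar.pow_apply' _ (by norm_num), ← map_pow]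
      congr 1
      ring
    rw [e, hψ, MulChar.one_apply]
    exact isUnit_one.neg
  rw [← CNT_shift h2 (-1) (fun z => ψ ((z ^ 2 - 1) / 4)), jacobiSum]
  refine Finset.sum_congr rfl fun y _ => ?_
  have e : ((2 * y + -1) ^ 2 - 1) / 4 = (-1) * (y * (1 - y)) := by
    field_simp
    ring
  rw [e, map_mul, hm1, one_mul, map_mul]

theorem CNT_alg {k : Type*} [Field k] (h3 : (3 : k) ≠ 0) {l w c x y : k}
    (hl2 : l ^ 2 = -3) (hcw : 9 * c = 4 * l + 9 * w ^ 2) (h4 : (4 : k) ≠ 0) :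
    x ^ 3 + l * x ^ 2 - x = y ^ 2 + w * y ↔ (x + l / 3) ^ 3 = ((2 * y + w) ^ 2 - c) / 4 := by
  have h27 : (27 : k) ≠ 0 := by
    have : (27 : k) = 3 ^ 3 := by norm_num
    rw [this]
    exact pow_ne_zero 3 h3
  have e1 : 27 * (x + l / 3) ^ 3 = 27 * x ^ 3 + 27 * l * x ^ 2 + 9 * l ^ 2 * x + l ^ 3 := by
    field_simp
    ring
  rw [eq_div_iff h4]
  constructor
  · intro h
    apply mul_left_cancel₀ h27
    linear_combination 4 * e1 + 108 * h + (36 * x + 4 * l) * hl2 + 3 * hcw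
  · intro h
    apply mul_left_cancel₀ (mul_ne_zero h27 h4)
    linear_combination (-4) * e1 + 27 * h - (36 * x + 4 * l) * hl2 - 3 * hcw

/-- The count of the points of `W49` by the Jacobi sums. -/
theorem card_W49 {k : Type*} [Field k] [Fintype k] (h2 : (2 : k) ≠ 0) (h3 : (3 : k) ≠ 0)
    (χ : MulChar k ℂ) (hχ : χ ≠ 1) (hχ3 : χ ^ 3 = 1) (hq : 3 ∣ Fintype.card k - 1)
    (w : k) (hw : w ^ 2 + w + 1 = 0) (h7 : 1 + 3 * w ≠ 0) (e : ℤ) (he : e = 1 ∨ e = -1)
    (hes : e = 1 ↔ IsSquare ((1 + 2 * w) * (1 + 3 * w))) :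
    (Nat.card (W49 w).toAffine.Point : ℂ) = Fintype.card k + 1 +
      (e : ℂ) * (χ (1 + 3 * w) * jacobiSum χ χ + χ⁻¹ (1 + 3 * w) * jacobiSum χ⁻¹ χ⁻¹) := by
  classical
  have hl2 : (1 + 2 * w) ^ 2 = -3 := by linear_combination 4 * hw
  have hl0 : 1 + 2 * w ≠ 0 := by
    intro h0
    rw [h0] at hl2
    apply h3
    linear_combination hl2
  have h4 : (4 : k) ≠ 0 := by
    have : (4 : k) = 2 * 2 := by norm_num
    rw [this]
    exact mul_ne_zero h2 h2
  have h9 : (9 : k) ≠ 0 := by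
    have : (9 : k) = 3 * 3 := by norm_num
    rw [this]
    exact mul_ne_zero h3 h3
  obtain ⟨c, hc⟩ : ∃ c : k, c = (1 + 2 * w) * (1 + 3 * w) / 9 := ⟨_, rfl⟩
  have hc0 : c ≠ 0 := by
    rw [hc]
    exact div_ne_zero (mul_ne_zero hl0 h7) h9
  have hc9 : 9 * c = (1 + 2 * w) * (1 + 3 * w) := by
    rw [hc]
    field_simp
  have hcw : 9 * c = 4 * (1 + 2 * w) + 9 * w ^ 2 := by
    rw [hc9]
    linear_combination (-3 : k) * hw
  have hinv3 : χ⁻¹ ^ 3 = 1 := by rw [inv_pow, hχ3, inv_one]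
  have hinv1 : χ⁻¹ ≠ 1 := inv_ne_one.mpr hχ
  have hchar : ringChar k ≠ 2 := by
    intro h0
    apply h2
    have h5 := CharP.cast_eq_zero k (ringChar k)
    rw [h0] at h5
    exact_mod_cast h5
  -- the quadratic symbol
  have hρ : ((quadraticChar k c : ℤ) : ℂ) = (e : ℂ) := by
    congr 1
    have hne : (1 + 2 * w) * (1 + 3 * w) ≠ 0 := mul_ne_zero hl0 h7
    have hsq : IsSquare c ↔ IsSquare ((1 + 2 * w) * (1 + 3 * w)) := by
      constructor
      · rintro ⟨d, hd⟩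
        refine ⟨3 * d, ?_⟩
        rw [← hc9, hd]
        ring
      · rintro ⟨d, hd⟩
        refine ⟨d / 3, ?_⟩
        rw [hc, hd]
        field_simp
        norm_num
    rcases quadraticChar_dichotomy hc0 with h | h
    · rw [h]
      have h5 := (quadraticChar_one_iff_isSquare hc0).mp h
      exact (hes.mpr (hsq.mp h5)).symm
    · rw [h]
      rcases he with h5 | h5
      · exfalso
        have h6 := hsq.mpr (hes.mp h5)
        rw [← quadraticChar_one_iff_isSquare hc0, h] at h6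
        norm_num at h6
      · exact h5.symm
  -- the character values
  have hψ : ∀ ψ : MulChar k ℂ, ψ ^ 3 = 1 → ψ c = ψ (1 + 3 * w) := by
    intro ψ hψ3
    have h5 : c * (1 + 2 * w) ^ 3 = -3 * (1 + 2 * w) * c := by
      linear_combination (1 + 2 * w) * c * hl2
    have h6 : c * (1 + 2 * w) ^ 3 = 1 + 3 * w := by
      apply mul_left_cancel₀ h9
      linear_combination (1 + 2 * w) ^ 3 * hc9 + (1 + 3 * w) * ((1 + 2 * w) ^ 2 - 3) * hl2
    have h7' : ψ (1 + 2 * w) ^ 3 = 1 := by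
      rw [← MulChar.pow_apply' _ (by norm_num), hψ3,
        MulChar.one_apply (isUnit_iff_ne_zero.mpr hl0)]
    rw [← h6, map_mul, map_pow, h7', mul_one]
  have hT : ∀ ψ : MulChar k ℂ, ψ ^ 3 = 1 → ψ ≠ 1 →
      ∑ y : k, ψ (((2 * y + w) ^ 2 - c) / 4) = e * (ψ (1 + 3 * w) * jacobiSum ψ ψ) := by
    intro ψ hψ3 hψ1
    rw [CNT_shift h2 w (fun z => ψ ((z ^ 2 - c) / 4)), CNT_T hchar h2 hψ1 hc0,
      ← CNT_J h2 hψ3, hρ, hψ ψ hψ3]
    ring
  rw [CNT_card_point w hw h7]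
  have hfib : ∀ y : k, ((Finset.univ.filter fun x : k =>
      x ^ 3 + (1 + 2 * w) * x ^ 2 - x = y ^ 2 + w * y).card : ℂ) =
      1 + χ (((2 * y + w) ^ 2 - c) / 4) + χ⁻¹ (((2 * y + w) ^ 2 - c) / 4) := by
    intro y
    rw [← S4.u4_cube_count χ hχ hχ3 hq]
    congr 1
    refine Finset.card_bij (fun x _ => x + (1 + 2 * w) / 3) ?_ ?_ ?_
    · intro x hx
      simp only [Finset.mem_filter, Finset.mem_univ, true_and] at hx ⊢
      apply (CNT_alg h3 hl2 hcw h4).mp hx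
    · intro x _ x' _ h
      exact add_right_cancel h
    · intro X hX
      simp only [Finset.mem_filter, Finset.mem_univ, true_and] at hX
      refine ⟨X - (1 + 2 * w) / 3, ?_, by ring⟩
      simp only [Finset.mem_filter, Finset.mem_univ, true_and]
      apply (CNT_alg h3 hl2 hcw h4).mpr
      rw [sub_add_cancel]
      exact hX
  push_cast
  simp_rw [hfib]
  rw [Finset.sum_add_distrib, Finset.sum_add_distrib, hT χ hχ3 hχ, hT χ⁻¹ hinv3 hinv1]
  simp only [Finset.sum_const, Finset.card_univ, nsmul_eq_mul, mul_one]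
  ring

end Pool.Agent.Lib.MP_1a91b9_ntT3.EF
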