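import Pool.Agent.Lib.MP_1a91b9_ntT3.EF.Defs
import Pool.Agent.Lib.MP_1a91b9_ntT.S1.Recip

/-!
# EF, job QUAD: the quadratic symbol of `λ (1 + 3 ω) = ω² - 4` at the places of `F`

`d := lam * vp = omO ^ 2 - 4`, so `d = a ^ 2 + 4 b` with `a = omO`, `b = -1`; `d` is prime to `2`
(`7 * 3 = N(d)` is odd) and the places `Q` of `K` with `OddAt Q d` are exactly the two places `(lam)`
and `(vp)` (both of order one). Let `P = w ∩ 𝓞 K`, `f` the residue degree of `w` over `P`, so
`relNorm w = P ^ f = (γ)` (as in `S4.exists_psi`: `Ideal.relNorm_eq_pow_of_isMaximal`).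
`S1.main_prod` (in `S1/Final.lean`, over the totally complex field `K`) with `z = γ`: for all large
finite `S`, `∏_{Q ∈ S} eps d γ Q = 1`. Here `eps d γ (vp) = chi (vp) γ`, `eps d γ (lam) = chi (lam) γ = 1`
because `γ ≡ 1` modulo `3`; at `Q = P`: `eps = (chi P d) ^ f` (`od P (γ) = f`); all other factors are
`1` (`od Q (γ) = 0`). So `chi P d ^ f = chi (vp) γ`.
* `chi (vp) γ ≡ γ ^ 3` modulo `vp` (Euler's criterion in `𝓞 K ⧸ (vp)`, which has `7` elements).
* `chi P d ^ f = 1` iff `redMap K w d` is a square in the residue field `k` of `w`: `k` is an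
  extension of degree `f` of `k_P`; a nonzero element `x` of `k_P` which is a nonsquare in `k_P` is a
  square in `k` iff `f` is even: `x ^ ((q^f - 1)/2) = (x ^ ((q-1)/2)) ^ (1 + q + ... + q^(f-1))` with
  `q` odd (`Nat.card k = q ^ f`, see `S4.exists_psi` and `nrm_eq`).
-/

set_option autoImplicit false

namespace Pool.Agent.Lib.MP_1a91b9_ntT3.EF

open NumberField IsDedekindDomain Polynomial Pool.Agent.Lib.MP_1a91b9_nt
open Pool.Agent.Lib.MP_1a91b9_ntT

open UniqueFactorizationMonoid in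
private theorem Quad_od_pow (P : HeightOneSpectrum (𝓞 K)) (f : ℕ) :
    S1.od P.asIdeal (P.asIdeal ^ f) = f := by
  classical
  unfold S1.od
  rw [normalizedFactors_pow, Multiset.count_nsmul, normalizedFactors_irreducible P.irreducible,
    normalize_eq, Multiset.count_singleton_self, mul_one]

private theorem Quad_geom (q : ℕ) (hq : q % 2 = 1) (f : ℕ) :
    ∃ s : ℕ, q ^ f = 2 * (q / 2 * s) + 1 ∧ s % 2 = f % 2 := by
  induction f with
  | zero => exact ⟨0, by rw [pow_zero, mul_zero, mul_zero, zero_add], rfl⟩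
  | succ f ih =>
    obtain ⟨s, h1, h2⟩ := ih
    refine ⟨q * s + 1, ?_, ?_⟩
    · have hqh : q = 2 * (q / 2) + 1 := by omega
      set h := q / 2
      rw [pow_succ, h1, hqh]
      ring
    · rw [Nat.add_mod, Nat.mul_mod, hq, one_mul, Nat.mod_mod, h2]
      omega

/-- Squares in extensions of finite fields. -/
private theorem Quad_sq_pow {k k' : Type*} [Field k] [Field k'] [Finite k] [Finite k']
    (φ : k →+* k') (f : ℕ) (hf : Nat.card k' = Nat.card k ^ f) (h2 : (2 : k) ≠ 0) (x : k)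
    (hx : x ≠ 0) (e : ℤ) (he : e = 1 ∨ e = -1) (hiff : e = 1 ↔ IsSquare x) :
    e ^ f = 1 ↔ IsSquare (φ x) := by
  classical
  have hk : Fintype k := Fintype.ofFinite k
  have hk' : Fintype k' := Fintype.ofFinite k'
  rw [Nat.card_eq_fintype_card, Nat.card_eq_fintype_card] at hf
  by_cases hs : IsSquare x
  · rw [hiff.mpr hs, one_pow]
    exact ⟨fun _ => hs.map φ, fun _ => rfl⟩
  · have he1 : e = -1 := he.resolve_left (fun h => hs (hiff.mp h))
    have hr : ringChar k ≠ 2 := by
      intro h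
      apply h2
      have := ringChar.Nat.cast_ringChar (R := k)
      rw [h] at this
      exact_mod_cast this
    have h2' : (2 : k') ≠ 0 := by
      intro h
      apply h2
      apply φ.injective
      rw [map_ofNat, map_zero, h]
    have hr' : ringChar k' ≠ 2 := by
      intro h
      apply h2'
      have := ringChar.Nat.cast_ringChar (R := k')
      rw [h] at this
      exact_mod_cast this
    have hx' : φ x ≠ 0 := by
      intro h
      apply hx
      apply φ.injective
      rw [h, map_zero]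
    have hxm : x ^ (Fintype.card k / 2) = -1 := by
      refine (FiniteField.pow_dichotomy hr hx).resolve_left ?_
      intro h
      exact hs ((FiniteField.isSquare_iff hr hx).mpr h)
    have hodd : Fintype.card k % 2 = 1 := FiniteField.odd_card_of_char_ne_two hr
    obtain ⟨s, hgeom, hpar⟩ := Quad_geom (Fintype.card k) hodd f
    have hhalf : Fintype.card k' / 2 = (Fintype.card k / 2) * s := by
      rw [hf, hgeom]
      omega
    rw [FiniteField.isSquare_iff hr' hx', hhalf, pow_mul, ← map_pow, hxm, map_neg, map_one, he1]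
    rcases Nat.even_or_odd s with h | h
    · have hf2 : Even f := by
        rw [Nat.even_iff] at h ⊢
        omega
      rw [h.neg_one_pow, hf2.neg_one_pow]
      exact ⟨fun _ => rfl, fun _ => rfl⟩
    · have hf2 : Odd f := by
        rw [Nat.odd_iff] at h ⊢
        omega
      rw [h.neg_one_pow, hf2.neg_one_pow]
      constructor
      · intro h
        norm_num at h
      · intro h
        exfalso
        apply h2'
        linear_combination -h

private theorem Quad_tc : IsTotallyComplex K := by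
  refine ⟨fun w => ?_⟩
  rw [← InfinitePlace.not_isReal_iff_isComplex]
  intro hr
  let φ := InfinitePlace.embedding_of_isReal hr
  have h1 : (φ om) ^ 2 + φ om + 1 = 0 := by
    have h2 : om ^ 2 + om + 1 = 0 := congrArg (fun x : 𝓞 K => (x : K)) omO_eq
    rw [← map_pow, ← map_add, ← map_one φ, ← map_add, h2, map_zero]
  nlinarith [sq_nonneg (2 * φ om + 1)]

/-- The symbol at an element prime to the place. -/
private theorem Quad_chi (Q : HeightOneSpectrum (𝓞 K)) (z : 𝓞 K) (hz : z ∉ Q.asIdeal) :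
    (S1.chi Q z = 1 ∨ S1.chi Q z = -1) ∧
      (S1.chi Q z = 1 ↔ IsSquare (Ideal.Quotient.mk Q.asIdeal z)) := by
  have hodd := S1.not_oddAt_of_not_mem hz
  refine ⟨S1.chi_of_not_odd Q z hodd, ?_⟩
  have hiff : S1.IsSqAt Q z ↔ IsSquare (Ideal.Quotient.mk Q.asIdeal z) := by
    constructor
    · rintro ⟨x, k, h1, h2, h3⟩
      have hk : k = 0 := by
        by_contra hk0
        apply hz
        exact Ideal.pow_le_self (by omega) h1
      subst hk
      rw [mul_zero, zero_add, pow_one] at h3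
      refine ⟨Ideal.Quotient.mk _ x, ?_⟩
      rw [← map_mul, eq_comm, Ideal.Quotient.eq, ← pow_two]
      exact h3
    · rintro ⟨r, hr⟩
      obtain ⟨x, rfl⟩ := Ideal.Quotient.mk_surjective r
      refine ⟨x, 0, by simp, by simpa using hz, ?_⟩
      rw [mul_zero, zero_add, pow_one, pow_two, ← Ideal.Quotient.eq, map_mul]
      exact hr.symm
  rw [← hiff]
  constructor
  · intro h
    by_contra hs
    rw [S1.chi_of_nsq Q z hodd hs] at h
    norm_num at h
  · intro h
    exact S1.chi_of_sq Q z hodd h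

/-- `(vp)` has norm `7`. -/
private theorem Quad_norm_vp : Ideal.absNorm (Ideal.span {vp}) = 7 := by
  obtain ⟨σ, hσ⟩ := S4.u4_conj omO omO_eq
  have e1 : Ideal.absNorm (Ideal.span {σ vp}) = Ideal.absNorm (Ideal.span {vp}) := by
    rw [Ideal.absNorm_span_singleton, Ideal.absNorm_span_singleton]
    congr 1
    let σ' : 𝓞 K ≃ₐ[ℤ] 𝓞 K := AlgEquiv.ofRingEquiv (f := σ) (fun n => by simp)
    exact Algebra.norm_eq_of_algEquiv σ' vp
  have e2 : vp * σ vp = ((7 : ℕ) : 𝓞 K) := by
    unfold vp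
    rw [map_add, map_one, map_mul, map_ofNat, hσ]
    push_cast
    linear_combination (-9 : 𝓞 K) * omO_eq
  have e3 : Ideal.absNorm (Ideal.span {vp}) * Ideal.absNorm (Ideal.span {σ vp}) = 7 ^ 2 := by
    rw [← map_mul, Ideal.span_singleton_mul_span_singleton, e2]
    exact S4.u4_absNorm_p 7
  rw [e1, ← pow_two] at e3
  exact (Nat.pow_left_injective (n := 2) (by norm_num)) e3

private theorem Quad_seven : vp ∣ (7 : 𝓞 K) :=
  ⟨-2 - 3 * omO, by unfold vp; linear_combination (9 : 𝓞 K) * omO_eq⟩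

/-- The place `(vp)`. -/
private theorem Quad_place : ∃ V : HeightOneSpectrum (𝓞 K), V.asIdeal = Ideal.span {vp} := by
  have h1 : (Ideal.span {vp}).IsPrime := by
    apply Ideal.isPrime_of_irreducible_absNorm
    rw [Quad_norm_vp]
    exact (by norm_num : Nat.Prime 7)
  have h2 : Ideal.span {vp} ≠ ⊥ := by
    intro h
    have h3 := Quad_norm_vp
    rw [h, Ideal.absNorm_bot] at h3
    norm_num at h3
  exact ⟨⟨_, h1, h2⟩, rfl⟩

/-- Euler's criterion at `(vp)`. -/
private theorem Quad_euler (V : HeightOneSpectrum (𝓞 K)) (hV : V.asIdeal = Ideal.span {vp})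
    (z : 𝓞 K) (hz : z ∉ V.asIdeal) : vp ∣ ((S1.chi V z : ℤ) : 𝓞 K) - z ^ 3 := by
  classical
  obtain ⟨hc, hsq⟩ := Quad_chi V z hz
  rw [← Ideal.mem_span_singleton, ← hV, ← Ideal.Quotient.eq]
  have hmax : V.asIdeal.IsMaximal := V.isMaximal
  let : Field (𝓞 K ⧸ V.asIdeal) := Ideal.Quotient.field V.asIdeal
  have hfin : Finite (𝓞 K ⧸ V.asIdeal) := V.asIdeal.finiteQuotientOfFreeOfNeBot V.ne_bot
  have hft : Fintype (𝓞 K ⧸ V.asIdeal) := Fintype.ofFinite _
  have hcard : Fintype.card (𝓞 K ⧸ V.asIdeal) = 7 := by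
    rw [← Nat.card_eq_fintype_card]
    have h := Quad_norm_vp
    rw [← hV, Ideal.absNorm_apply, Submodule.cardQuot_apply] at h
    exact h
  have hx : Ideal.Quotient.mk V.asIdeal z ≠ 0 := by
    rw [Ne, Ideal.Quotient.eq_zero_iff_mem]
    exact hz
  have hr : ringChar (𝓞 K ⧸ V.asIdeal) ≠ 2 := by
    intro h
    have h2 := FiniteField.even_card_of_char_two h
    rw [hcard] at h2
    norm_num at h2
  have h3 : (7 : ℕ) / 2 = 3 := by norm_num
  rcases hc with h | h
  · rw [h]
    have h1 := (FiniteField.isSquare_iff hr hx).mp (hsq.mp h)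
    rw [hcard, h3] at h1
    rw [map_pow, h1]
    push_cast
    rw [map_one]
  · have h1 := (FiniteField.pow_dichotomy hr hx).resolve_left (fun h4 => by
      rw [hsq.mpr ((FiniteField.isSquare_iff hr hx).mpr h4)] at h
      norm_num at h)
    rw [hcard, h3] at h1
    rw [h, map_pow, h1]
    push_cast
    rw [map_neg, map_one]

section
variable {F : Type*} [Field F] [NumberField F] [Algebra K F]

/-- The quadratic symbol of `lam * vp` at `w`, by the reciprocity law. -/
theorem quad_rec (w : HeightOneSpectrum (𝓞 F)) (h2 : (2 : 𝓞 F) ∉ w.asIdeal)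
    (h3 : (3 : 𝓞 F) ∉ w.asIdeal) (hv : algebraMap (𝓞 K) (𝓞 F) vp ∉ w.asIdeal) (γ : 𝓞 K)
    (h1 : (3 : 𝓞 K) ∣ γ - 1) (hγ : Ideal.span {γ} = Ideal.relNorm (𝓞 K) w.asIdeal) :
    ∃ e : ℤ, (e = 1 ∨ e = -1) ∧ (e = 1 ↔ IsSquare (redMap K w (lam * vp))) ∧
      vp ∣ (e : 𝓞 K) - γ ^ 3 := by
  classical
  have hker : RingHom.ker (redMap K w) = w.asIdeal.under (𝓞 K) := redMap_ker w
  have hmemP : ∀ x : 𝓞 K, x ∈ w.asIdeal.under (𝓞 K) ↔ algebraMap (𝓞 K) (𝓞 F) x ∈ w.asIdeal :=
    fun x => Iff.rfl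
  have hPb : w.asIdeal.under (𝓞 K) ≠ ⊥ := Ideal.under_ne_bot _ w.ne_bot
  have hPp : (w.asIdeal.under (𝓞 K)).IsPrime := inferInstance
  have hPmax : (w.asIdeal.under (𝓞 K)).IsMaximal := Ideal.IsPrime.isMaximal inferInstance hPb
  have hlo : w.asIdeal.LiesOver (w.asIdeal.under (𝓞 K)) := ⟨rfl⟩
  have hwmax : w.asIdeal.IsMaximal := w.isMaximal
  have hrel : Ideal.relNorm (𝓞 K) w.asIdeal =
      (w.asIdeal.under (𝓞 K)) ^ w.asIdeal.inertiaDeg (𝓞 K) :=
    Ideal.relNorm_eq_pow_of_isMaximal w.asIdeal _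
  have hnP : nrm w = Ideal.absNorm (w.asIdeal.under (𝓞 K)) ^ w.asIdeal.inertiaDeg (𝓞 K) := by
    rw [nrm_eq, Ideal.absNorm_pow_inertiaDeg _ w.asIdeal]
  rw [hrel] at hγ
  set f := w.asIdeal.inertiaDeg (𝓞 K) with hf
  obtain ⟨P, hPdef⟩ : ∃ P : HeightOneSpectrum (𝓞 K), P.asIdeal = w.asIdeal.under (𝓞 K) :=
    ⟨⟨_, hPp, hPb⟩, rfl⟩
  rw [← hPdef] at hγ hnP hker hmemP
  -- the elements `2`, `3`, `vp`, `lam` are not in `P`
  have h2P : (2 : 𝓞 K) ∉ P.asIdeal := by
    rw [hmemP, map_ofNat]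
    exact h2
  have h3P : (3 : 𝓞 K) ∉ P.asIdeal := by
    rw [hmemP, map_ofNat]
    exact h3
  have hvP : vp ∉ P.asIdeal := by
    rw [hmemP]
    exact hv
  have hlP : lam ∉ P.asIdeal := by
    intro h
    apply h3P
    have h4 : (3 : 𝓞 K) = -(lam * lam) := by linear_combination lam_sq
    rw [h4]
    exact P.asIdeal.neg_mem (P.asIdeal.mul_mem_left _ h)
  have hdP : lam * vp ∉ P.asIdeal := by
    intro h
    rcases P.isPrime.mem_or_mem h with h | h
    · exact hlP h
    · exact hvP h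
  -- a place which contains `γ` is `P`
  have hγQ : ∀ Q : HeightOneSpectrum (𝓞 K), γ ∈ Q.asIdeal → Q = P := by
    intro Q hQ
    have h4 : P.asIdeal ^ f ≤ Q.asIdeal := by
      rw [← hγ, Ideal.span_singleton_le_iff_mem]
      exact hQ
    have h5 : P.asIdeal ≤ Q.asIdeal := Q.isPrime.le_of_pow_le h4
    apply HeightOneSpectrum.ext
    exact (P.isMaximal.eq_of_le Q.isPrime.ne_top h5).symm
  have hγ0 : γ ≠ 0 := by
    intro h
    rw [h, Ideal.span_singleton_zero] at hγ
    exact pow_ne_zero f P.ne_bot hγ.symm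
  -- coprimality
  have hd2 : IsCoprime (lam * vp) 2 := by
    refine ⟨omO, 2 * omO, ?_⟩
    unfold lam vp
    have h : omO ^ 3 = 1 := by linear_combination (omO - 1) * omO_eq
    linear_combination 6 * h + 5 * omO_eq
  have hz2 : IsCoprime γ 2 := by
    rw [← Ideal.isCoprime_span_singleton_iff, hγ]
    apply IsCoprime.pow_left
    rw [Ideal.isCoprime_iff_sup_eq]
    refine P.isMaximal.out.2 _ (lt_of_le_of_ne le_sup_left ?_)
    intro h4
    apply h2P
    rw [h4]
    exact Ideal.mem_sup_right (Ideal.mem_span_singleton_self _)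
  have hcop : ∀ Q : HeightOneSpectrum (𝓞 K), OddAt Q (lam * vp) → γ ∉ Q.asIdeal := by
    rintro Q ⟨k, hk, -⟩ hQ
    rw [hγQ Q hQ] at hk
    exact hdP (Ideal.pow_le_self (by omega) hk)
  have htc : IsTotallyComplex K := Quad_tc
  obtain ⟨S, hSodd, hSγ, hprod⟩ := S1.reciprocity_explicit (lam * vp) γ hd2
    ⟨omO, -1, by unfold lam vp; linear_combination (5 : 𝓞 K) * omO_eq⟩ hz2 hcop
  obtain ⟨V, hV⟩ := Quad_place
  have hvV : vp ∈ V.asIdeal := by rw [hV]; exact Ideal.mem_span_singleton_self _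
  have hVP : V ≠ P := by
    rintro rfl
    exact hvP hvV
  have hγV : γ ∉ V.asIdeal := fun h => hVP (hγQ V h)
  -- `V` is a place of odd order
  have hlV : ¬ vp ∣ lam := by
    intro h
    have h4 : vp ∣ 3 := by
      have h5 : (3 : 𝓞 K) = -(lam * lam) := by linear_combination lam_sq
      rw [h5]
      exact (Dvd.dvd.mul_right h _).neg_right
    have h6 : vp ∣ 1 := by
      have h7 : (1 : 𝓞 K) = 7 - 2 * 3 := by norm_num
      rw [h7]
      exact dvd_sub Quad_seven (Dvd.dvd.mul_left h4 _)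
    apply V.isPrime.ne_top
    rw [Ideal.eq_top_iff_one, hV, Ideal.mem_span_singleton]
    exact h6
  have hvp0 : vp ≠ 0 := by
    intro h
    have h8 := V.ne_bot
    rw [hV, h, Ideal.span_singleton_zero] at h8
    exact h8 rfl
  have hVodd : OddAt V (lam * vp) := by
    refine ⟨0, ?_, ?_⟩
    · rw [mul_zero, zero_add, pow_one]
      exact V.asIdeal.mul_mem_left _ hvV
    · rw [mul_zero, zero_add, hV, Ideal.span_singleton_pow, Ideal.mem_span_singleton]
      rintro ⟨c, hc⟩
      apply hlV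
      refine ⟨c, ?_⟩
      apply mul_right_cancel₀ hvp0
      linear_combination hc
  -- the other factors are `1`
  have hother : ∀ Q ∈ S, Q ≠ V → Q ≠ P → S1.eps (lam * vp) γ Q = 1 := by
    intro Q _ hQV hQP
    have hγQ' : γ ∉ Q.asIdeal := fun h => hQP (hγQ Q h)
    by_cases hQ : OddAt Q (lam * vp)
    · rw [S1.eps_odd hQ]
      obtain ⟨k, hk, -⟩ := hQ
      have hdQ : lam * vp ∈ Q.asIdeal := Ideal.pow_le_self (by omega) hk
      have hlQ : lam ∈ Q.asIdeal := by
        rcases Q.isPrime.mem_or_mem hdQ with h | h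
        · exact h
        · exfalso
          apply hQV
          apply HeightOneSpectrum.ext
          refine (V.isMaximal.eq_of_le Q.isPrime.ne_top ?_).symm
          rw [hV, Ideal.span_singleton_le_iff_mem]
          exact h
      have h3Q : γ - 1 ∈ Q.asIdeal := by
        obtain ⟨c, hc⟩ := h1
        have h4 : γ - 1 = -(lam * c) * lam := by
          rw [hc]
          linear_combination c * lam_sq
        rw [h4]
        exact Q.asIdeal.mul_mem_left _ hlQ
      rw [S1.chi_congr hγQ' h3Q]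
      have h1Q : (1 : 𝓞 K) ∉ Q.asIdeal := (Ideal.ne_top_iff_one _).mp Q.isPrime.ne_top
      rw [(Quad_chi Q 1 h1Q).2, map_one]
      exact IsSquare.one
    · rw [S1.eps_even hQ, S1.od_eq_zero Q γ hγ0 hγQ', pow_zero]
  -- the product
  have hmain : S1.chi V γ * S1.chi P (lam * vp) ^ f = 1 := by
    have hVS : V ∈ S := hSodd V hVodd
    have hPodd : ¬ OddAt P (lam * vp) := S1.not_oddAt_of_not_mem hdP
    have hfac : S1.eps (lam * vp) γ P = S1.chi P (lam * vp) ^ f := by
      rw [S1.eps_even hPodd, hγ, Quad_od_pow]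
    by_cases hPS : P ∈ S
    · rw [← Finset.mul_prod_erase S _ hVS, ← Finset.mul_prod_erase (S.erase V) _
        (Finset.mem_erase.mpr ⟨hVP.symm, hPS⟩), Finset.prod_eq_one, mul_one, S1.eps_odd hVodd,
        hfac] at hprod
      · exact hprod
      · intro Q hQ
        rw [Finset.mem_erase, Finset.mem_erase] at hQ
        exact hother Q hQ.2.2 hQ.2.1 hQ.1
    · have hγP : γ ∉ P.asIdeal := fun h => hPS (hSγ P h)
      have hf0 : f = 0 := by
        have h4 := S1.od_eq_zero P γ hγ0 hγP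
        rwa [hγ, Quad_od_pow] at h4
      rw [← Finset.mul_prod_erase S _ hVS, Finset.prod_eq_one, mul_one, S1.eps_odd hVodd] at hprod
      · rw [hf0, pow_zero, mul_one]
        exact hprod
      · intro Q hQ
        rw [Finset.mem_erase] at hQ
        exact hother Q hQ.2 hQ.1 (fun h => hPS (h ▸ hQ.2))
  -- squares in the residue field of `w`
  have hsqw : S1.chi P (lam * vp) ^ f = 1 ↔ IsSquare (redMap K w (lam * vp)) := by
    have hmax : P.asIdeal.IsMaximal := P.isMaximal
    let : Field (𝓞 K ⧸ P.asIdeal) := Ideal.Quotient.field P.asIdeal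
    have hfin : Finite (𝓞 K ⧸ P.asIdeal) := P.asIdeal.finiteQuotientOfFreeOfNeBot P.ne_bot
    have hfinw : Finite (IsLocalRing.ResidueField (w.adicCompletionIntegers F)) :=
      finite_residue w
    let φ : (𝓞 K ⧸ P.asIdeal) →+* IsLocalRing.ResidueField (w.adicCompletionIntegers F) :=
      Ideal.Quotient.lift P.asIdeal (redMap K w) (fun a ha => by
        rw [← hker] at ha
        exact ha)
    have hφ : ∀ x : 𝓞 K, φ (Ideal.Quotient.mk P.asIdeal x) = redMap K w x := fun x =>
      Ideal.Quotient.lift_mk _ _ _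
    have h2q : (2 : 𝓞 K ⧸ P.asIdeal) ≠ 0 := by
      intro h
      apply h2P
      rw [← Ideal.Quotient.eq_zero_iff_mem, map_ofNat]
      exact h
    have hxq : Ideal.Quotient.mk P.asIdeal (lam * vp) ≠ 0 := by
      rw [Ne, Ideal.Quotient.eq_zero_iff_mem]
      exact hdP
    obtain ⟨hc, hsq⟩ := Quad_chi P (lam * vp) hdP
    have h4 := Quad_sq_pow φ f (by
      change nrm w = _
      rw [hnP, Ideal.absNorm_apply, Submodule.cardQuot_apply]) h2q _ hxq _ hc hsq
    rw [hφ] at h4
    exact h4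
  refine ⟨S1.chi V γ, (Quad_chi V γ hγV).1, ?_, Quad_euler V hV γ hγV⟩
  rw [← hsqw]
  constructor
  · intro h
    rw [h, one_mul] at hmain
    exact hmain
  · intro h
    rw [h, mul_one] at hmain
    exact hmain

end

end Pool.Agent.Lib.MP_1a91b9_ntT3.EF
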