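import Pool.Agent.Lib.MP_1a91b9_ntT3.EF.Defs

/-!
# EF, job THREE: the number of points of `W49` in characteristic `3`

`w² + w + 1 = (w - 1)²` in characteristic `3`, so `w = 1` and the curve is `y² + y = x³ - x`
(`1 + 2w = 3 = 0`), `Δ = (1+3w)² = 1`, all affine points are nonsingular.
`y² + y = (y - 1)² - 1`, so `#affine = #{(x, Y) : Y² = x³ - x + 1} = Σ_x (1 + ρ(x³ - x + 1))`
(`quadraticChar_card_sqrts`).
* `k` with `3` elements: `x³ - x = 0`, `Y² = 1`: `6` points and infinity: `7`.
* `Nat.card k = 3 ^ f`, `3 ∣ f`, `f` odd: there is `c` in `k` with `c³ - c = 1` (take a root `c` in an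
  algebraic closure: `c ^ (3 ^ j) = c + j`, so `c ^ (3 ^ f) = c + f = c` because `3 ∣ f`, hence `c` is in `k`;
  elements of the algebraic closure fixed by `x ↦ x ^ (card k)` are in `k`, since `X ^ card k - X` splits
  in `k`). With `g(x) = x³ - x + 1`: `g(c - x) = -(x³ - x) + 2 = -g(x)`. Since `card k = 3 ^ f`, `f` odd,
  is `3` modulo `4`, `ρ(-1) = -1`, so `Σ_x ρ(g(x)) = 0` and `# = 3 ^ f + 1`.
-/

set_option autoImplicit false

namespace Pool.Agent.Lib.MP_1a91b9_ntT3.EF

private theorem THREE_card_point {k : Type*} [Field k] [Fintype k] [DecidableEq k]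
    (h3 : (3 : k) = 0) (w : k) (hw : w ^ 2 + w + 1 = 0) :
    Nat.card (W49 w).toAffine.Point =
      1 + ∑ x : k, (Finset.univ.filter fun y : k => y ^ 2 = x ^ 3 - x + 1).card := by
  classical
  have hw1 : w = 1 := by
    have h : (w - 1) ^ 2 = 0 := by linear_combination hw - w * h3
    exact sub_eq_zero.mp (pow_eq_zero_iff (by norm_num) |>.mp h)
  have hns : ∀ p : k × k, (W49 w).toAffine.Nonsingular p.1 p.2 ↔
      (p.2 - 1) ^ 2 = p.1 ^ 3 - p.1 + 1 := by
    intro p
    have hell : (W49 w).Δ ≠ 0 := by
      rw [W49_delta w hw, h3, zero_mul, add_zero, one_pow]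
      exact one_ne_zero
    have hE : (W49 w).IsElliptic := ⟨isUnit_iff_ne_zero.mpr hell⟩
    rw [← WeierstrassCurve.Affine.equation_iff_nonsingular,
      WeierstrassCurve.Affine.equation_iff]
    simp only [W49, WeierstrassCurve.toAffine]
    rw [hw1]
    constructor
    · intro h
      linear_combination h + (p.1 ^ 2 - p.2) * h3
    · intro h
      linear_combination h - (p.1 ^ 2 - p.2) * h3
  rw [Nat.card_congr (Pool.Agent.Lib.MP_1a91b9_nt.pointEquivOption _), Finite.card_option,
    add_comm]
  congr 1
  rw [Nat.card_eq_fintype_card, Fintype.card_subtype]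
  have e1 : (Finset.univ.filter fun p : k × k => (W49 w).toAffine.Nonsingular p.1 p.2) =
      Finset.univ.filter fun p : k × k => (p.2 - 1) ^ 2 = p.1 ^ 3 - p.1 + 1 :=
    Finset.filter_congr fun p _ => hns p
  rw [e1, Finset.card_eq_sum_card_fiberwise (f := Prod.fst) (t := Finset.univ)
    (fun _ _ => Finset.mem_coe.mpr (Finset.mem_univ _))]
  refine Finset.sum_congr rfl fun x _ => ?_
  refine Finset.card_bij (fun p _ => p.2 - 1) ?_ ?_ ?_
  · rintro ⟨a, b⟩ hp
    simp only [Finset.mem_filter, Finset.mem_univ, true_and] at hp ⊢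
    obtain ⟨h1, rfl⟩ := hp
    exact h1
  · rintro ⟨a, b⟩ hp ⟨a', b'⟩ hp' h
    simp only [Finset.mem_filter, Finset.mem_univ, true_and] at hp hp' h
    rw [Prod.mk.injEq]
    exact ⟨hp.2.trans hp'.2.symm, sub_left_injective h⟩
  · intro b hb
    simp only [Finset.mem_filter, Finset.mem_univ, true_and] at hb
    refine ⟨(x, b + 1), ?_, add_sub_cancel_right b 1⟩
    simp only [Finset.mem_filter, Finset.mem_univ, true_and, add_sub_cancel_right, and_true]
    exact hb

private theorem THREE_card {k : Type*} [Field k] [Fintype k] [DecidableEq k]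
    (h3 : (3 : k) = 0) (w : k) (hw : w ^ 2 + w + 1 = 0) :
    (Nat.card (W49 w).toAffine.Point : ℤ) =
      1 + Fintype.card k + ∑ x : k, quadraticChar k (x ^ 3 - x + 1) := by
  have hchar : ringChar k ≠ 2 := by
    intro h0
    have h5 := CharP.cast_eq_zero k (ringChar k)
    rw [h0] at h5
    have h6 : (1 : k) = 0 := by
      have : (2 : k) = 0 := by exact_mod_cast h5
      linear_combination h3 - this
    exact one_ne_zero h6
  rw [THREE_card_point h3 w hw]
  push_cast
  have h : ∀ x : k, ((Finset.univ.filter fun y : k => y ^ 2 = x ^ 3 - x + 1).card : ℤ) =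
      1 + quadraticChar k (x ^ 3 - x + 1) := by
    intro x
    have h1 := quadraticChar_card_sqrts hchar (x ^ 3 - x + 1)
    have h2 : (Set.toFinset {y : k | y ^ 2 = x ^ 3 - x + 1}) =
        Finset.univ.filter (fun y : k => y ^ 2 = x ^ 3 - x + 1) := by
      ext y
      simp
    rw [h2] at h1
    rw [h1, add_comm]
  simp_rw [h]
  rw [Finset.sum_add_distrib, Finset.sum_const, Finset.card_univ]
  simp only [nsmul_eq_mul, mul_one]
  ring

/-- The count over a field with three elements. -/
theorem card_W49_three {k : Type*} [Field k] (hk : Nat.card k = 3) (w : k)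
    (hw : w ^ 2 + w + 1 = 0) : Nat.card (W49 w).toAffine.Point = 7 := by
  classical
  have hfin : Finite k := Nat.finite_of_card_ne_zero (by rw [hk]; norm_num)
  have _ := Fintype.ofFinite k
  rw [Nat.card_eq_fintype_card] at hk
  have h3 : (3 : k) = 0 := by
    have h := FiniteField.cast_card_eq_zero k
    rw [hk] at h
    exact_mod_cast h
  have h1 := THREE_card h3 w hw
  have h2 : ∀ x : k, quadraticChar k (x ^ 3 - x + 1) = 1 := by
    intro x
    have hx : x ^ 3 = x := by
      have := FiniteField.pow_card x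
      rwa [hk] at this
    rw [hx, sub_self, zero_add, map_one]
  simp_rw [h2] at h1
  rw [Finset.sum_const, Finset.card_univ, hk] at h1
  norm_num at h1
  exact_mod_cast h1

private theorem THREE_root {k : Type*} [Field k] [Fintype k] (f : ℕ) (hf : 1 ≤ f)
    (hk : Fintype.card k = 3 ^ f) (h30 : (3 : k) = 0) (h3 : 3 ∣ f) :
    ∃ c : k, c ^ 3 - c = 1 := by
  classical
  obtain ⟨c, hc⟩ := IsAlgClosed.exists_root
    (Polynomial.X ^ 3 - Polynomial.X - 1 : Polynomial (AlgebraicClosure k)) (by
      have : (Polynomial.X ^ 3 - Polynomial.X - 1 : Polynomial (AlgebraicClosure k)).degree = 3 := by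
        compute_degree!
      rw [this]
      norm_num)
  have hc1 : c ^ 3 = c + 1 := by
    rw [Polynomial.IsRoot.def] at hc
    simp only [Polynomial.eval_sub, Polynomial.eval_pow, Polynomial.eval_X,
      Polynomial.eval_one] at hc
    linear_combination hc
  have h30' : ((3 : ℕ) : AlgebraicClosure k) = 0 := by
    have := congrArg (algebraMap k (AlgebraicClosure k)) h30
    rw [map_ofNat, map_zero] at this
    exact_mod_cast this
  have hchar : CharP (AlgebraicClosure k) 3 :=
    (CharP.charP_iff_prime_eq_zero Nat.prime_three).mpr h30'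
  have hpr : Fact (Nat.Prime 3) := ⟨Nat.prime_three⟩
  have hpow : ∀ j : ℕ, c ^ (3 ^ j) = c + j := by
    intro j
    induction j with
    | zero => simp
    | succ j ih =>
      have h1 : ((j : AlgebraicClosure k)) ^ 3 = j := by
        have := map_natCast (frobenius (AlgebraicClosure k) 3) j
        rwa [frobenius_def] at this
      rw [pow_succ, pow_mul, ih, add_pow_char, h1, hc1]
      push_cast
      ring
  have hq : c ^ Fintype.card k = c := by
    rw [hk, hpow f]
    obtain ⟨m, rfl⟩ := h3
    rw [Nat.cast_mul, h30', zero_mul, add_zero]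
  have hq1 : 1 < Fintype.card k := Fintype.one_lt_card
  have hP0 : (Polynomial.X ^ Fintype.card k - Polynomial.X : Polynomial (AlgebraicClosure k)) ≠ 0 :=
    FiniteField.X_pow_card_sub_X_ne_zero _ hq1
  have hsub : Finset.univ.image (algebraMap k (AlgebraicClosure k)) ⊆
      (Polynomial.X ^ Fintype.card k - Polynomial.X :
        Polynomial (AlgebraicClosure k)).roots.toFinset := by
    intro z hz
    rw [Finset.mem_image] at hz
    obtain ⟨a, _, rfl⟩ := hz
    rw [Multiset.mem_toFinset, Polynomial.mem_roots hP0, Polynomial.IsRoot.def]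
    simp only [Polynomial.eval_sub, Polynomial.eval_pow, Polynomial.eval_X]
    rw [← map_pow, FiniteField.pow_card, sub_self]
  have hcard : (Polynomial.X ^ Fintype.card k - Polynomial.X :
        Polynomial (AlgebraicClosure k)).roots.toFinset.card ≤
      (Finset.univ.image (algebraMap k (AlgebraicClosure k))).card := by
    rw [Finset.card_image_of_injective _ (algebraMap k (AlgebraicClosure k)).injective,
      Finset.card_univ]
    refine (Multiset.toFinset_card_le _).trans ((Polynomial.card_roots' _).trans ?_)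
    rw [FiniteField.X_pow_card_sub_X_natDegree_eq _ hq1]
  have heq := Finset.eq_of_subset_of_card_le hsub hcard
  have hmem : c ∈ Finset.univ.image (algebraMap k (AlgebraicClosure k)) := by
    rw [heq, Multiset.mem_toFinset, Polynomial.mem_roots hP0, Polynomial.IsRoot.def]
    simp only [Polynomial.eval_sub, Polynomial.eval_pow, Polynomial.eval_X]
    rw [hq, sub_self]
  rw [Finset.mem_image] at hmem
  obtain ⟨a, _, ha⟩ := hmem
  refine ⟨a, (algebraMap k (AlgebraicClosure k)).injective ?_⟩
  rw [map_sub, map_pow, ha, map_one, hc1]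
  ring

/-- The count over a field with `3 ^ f` elements, `f` an odd multiple of `3`. -/
theorem card_W49_three_pow {k : Type*} [Field k] (f : ℕ) (hk : Nat.card k = 3 ^ f) (h3 : 3 ∣ f)
    (hodd : Odd f) (w : k) (hw : w ^ 2 + w + 1 = 0) :
    Nat.card (W49 w).toAffine.Point = 3 ^ f + 1 := by
  classical
  have hfin : Finite k := Nat.finite_of_card_ne_zero (by rw [hk]; positivity)
  have _ := Fintype.ofFinite k
  rw [Nat.card_eq_fintype_card] at hk
  have h30 : (3 : k) = 0 := by
    have h := FiniteField.cast_card_eq_zero k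
    rw [hk] at h
    push_cast at h
    exact (pow_eq_zero_iff (by rintro rfl; exact absurd hodd (by decide))).mp h
  have hf1 : 1 ≤ f := by
    rcases Nat.eq_zero_or_pos f with h | h
    · rw [h] at hodd
      exact absurd hodd (by decide)
    · exact h
  have h1 := THREE_card h30 w hw
  obtain ⟨c, hc⟩ := THREE_root f hf1 hk h30 h3
  have hm4 : Fintype.card k % 4 = 3 := by
    rw [hk]
    obtain ⟨m, rfl⟩ := hodd
    rw [pow_succ, pow_mul, Nat.mul_mod, Nat.pow_mod]
    norm_num
  have hm1 : quadraticChar k (-1) = -1 := by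
    rcases quadraticChar_dichotomy (F := k) (a := -1) (neg_ne_zero.mpr one_ne_zero) with h | h
    · exfalso
      have h5 := (quadraticChar_one_iff_isSquare (neg_ne_zero.mpr one_ne_zero)).mp h
      exact (FiniteField.isSquare_neg_one_iff.mp h5) hm4
    · exact h
  have hb : Function.Bijective (fun x : k => c - x) := by
    rw [← Finite.injective_iff_bijective]
    intro a b h
    exact sub_right_injective h
  have hsum : ∑ x : k, quadraticChar k (x ^ 3 - x + 1) =
      - ∑ x : k, quadraticChar k (x ^ 3 - x + 1) := by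
    conv_lhs => rw [← hb.sum_comp (fun x => quadraticChar k (x ^ 3 - x + 1))]
    rw [← Finset.sum_neg_distrib]
    refine Finset.sum_congr rfl fun x _ => ?_
    have e1 : (c - x) ^ 3 - (c - x) + 1 = (-1) * (x ^ 3 - x + 1) := by
      linear_combination hc + (-c ^ 2 * x + c * x ^ 2 + 1) * h30
    rw [e1, map_mul, hm1]
    ring
  have hsum0 : ∑ x : k, quadraticChar k (x ^ 3 - x + 1) = 0 := by linarith
  rw [hsum0, hk] at h1
  have h2 : (Nat.card (W49 w).toAffine.Point : ℤ) = ((3 ^ f + 1 : ℕ) : ℤ) := by
    rw [h1]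
    push_cast
    ring
  exact_mod_cast h2

end Pool.Agent.Lib.MP_1a91b9_ntT3.EF
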