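import Pool.Agent.Lib.MP_1a91b9_ntT3.EF.Defs
import Pool.Agent.Lib.MP_1a91b9_ntT.S4.EulerOne
import Pool.Agent.Lib.MP_1a91b9_ntT.S4.FactorB
import Pool.Agent.Lib.MP_1a91b9_ntT.DY.Two

/-!
# EF, job TWO: the number of points of `E49` at the places above `2`

`k` = residue field of `w`, `2 = 0` in `k`, `u := redMap K w omO`, `u² + u + 1 = 0`, `Nat.card k = 4 ^ f`
(`nrm w = absNorm ((2)) ^ f`, the ideal `(2)` of `𝓞 K` is prime of norm `4`, see `S4.psi_dyadic`).
The curve `W49 u` is `y² + u y = x³ + x² + x` (`1 + 2u = 1`, `-1 = 1`), all affine points are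
nonsingular (`Δ = (1+3u)² = (1+u)² = u ≠ 0`). With `x = X + 1`, `y = u Y`: `u² (Y² + Y) = X³ + 1`,
that is `Y² + Y = u X³ + u` (as `u⁻² = u`).
* `f = 1`: `k` has `4` elements; `7` points. (`X³ = 1` for the three `X ≠ 0`: then `Y² + Y = 2u = 0`, two
  solutions each: `6`; `X = 0`: `Y² + Y = u` has no solution in a field with four elements; plus the
  point at infinity. For instance `k = {0, 1, u, u+1}` and a finite check.)
* `3 ∣ f` and `f` odd: `u = z³` with `z` in `k` (`u ^ ((4^f - 1)/3) = 1` since `3 ∣ 1 + 4 + ... + 4^(f-1)`),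
  so the equation is `Y² + Y = (zX)³ + u`, in bijection with `Y² + Y = X³ + u`. `u` is not of the form
  `Y² + Y` in `k` (if `Y² + Y = u` then `Y` generates a field with `16` elements: `Y ^ 4 = Y + u + u² = Y + 1`,
  so `Y ^ (4 ^ f) = Y + f = Y + 1 ≠ Y`, contradiction to `Y ^ (4 ^ f) = Y`). So for every `X` the numbers of `Y`
  with `Y² + Y = X³` and with `Y² + Y = X³ + u` add up to `2` (`DY.exists_as_iff` in `DY/Two.lean` or
  `S10.wp2_add`), hence `#W49 + #fermatCubic = 2 (q + 1)`, `q = 4 ^ f`. And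
  `#fermatCubic(k) = q + 1 + 2 * 2 ^ f`: by `S4.psi_place` at `x = 1` and `S4.locPoly_model`-type formula
  (`(1 - ψ)(1 - ψbar) = #`), `S4.psi_dyadic`: `psi F w = (-2) ^ f'` with `f' > 0`, and
  `4 ^ f' = nrm w = 4 ^ f` so `f' = f` (or directly: `relNorm w = (2) ^ f`). So `#W49 = q + 1 - 2 * 2 ^ f`.
-/

set_option autoImplicit false

namespace Pool.Agent.Lib.MP_1a91b9_ntT3.EF

open NumberField IsDedekindDomain Polynomial Pool.Agent.Lib.MP_1a91b9_nt
open Pool.Agent.Lib.MP_1a91b9_ntT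

private theorem TWO_card_point {k : Type*} [Field k] [Fintype k] [DecidableEq k]
    (h2 : (2 : k) = 0) (u : k) (hu : u ^ 2 + u + 1 = 0) :
    Nat.card (W49 u).toAffine.Point =
      1 + ∑ x : k, (Finset.univ.filter fun y : k => y ^ 2 + y = u * x ^ 3 + u).card := by
  classical
  have hu3 : u ^ 3 = 1 := by linear_combination (u - 1) * hu
  have hu0 : u ≠ 0 := by
    rintro rfl
    norm_num at hu3
  have hns : ∀ p : k × k, (W49 u).toAffine.Nonsingular p.1 p.2 ↔
      p.2 ^ 2 + u * p.2 = p.1 ^ 3 + p.1 ^ 2 + p.1 := by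
    intro p
    have hell : (W49 u).Δ ≠ 0 := by
      rw [W49_delta u hu]
      intro h
      have h1 : (1 + 3 * u) = 0 := pow_eq_zero_iff (by norm_num) |>.mp h
      have h3 : u ^ 2 = 0 := by linear_combination hu - h1 + u * h2
      exact hu0 (pow_eq_zero_iff (by norm_num) |>.mp h3)
    have hE : (W49 u).IsElliptic := ⟨isUnit_iff_ne_zero.mpr hell⟩
    rw [← WeierstrassCurve.Affine.equation_iff_nonsingular,
      WeierstrassCurve.Affine.equation_iff]
    simp only [W49, WeierstrassCurve.toAffine]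
    constructor
    · intro h
      linear_combination h + (u * p.1 ^ 2 - p.1) * h2
    · intro h
      linear_combination h - (u * p.1 ^ 2 - p.1) * h2
  rw [Nat.card_congr (Pool.Agent.Lib.MP_1a91b9_nt.pointEquivOption _), Finite.card_option,
    add_comm]
  congr 1
  rw [Nat.card_eq_fintype_card, Fintype.card_subtype]
  have e1 : (Finset.univ.filter fun p : k × k => (W49 u).toAffine.Nonsingular p.1 p.2) =
      Finset.univ.filter fun p : k × k => p.2 ^ 2 + u * p.2 = p.1 ^ 3 + p.1 ^ 2 + p.1 :=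
    Finset.filter_congr fun p _ => hns p
  rw [e1, Finset.card_eq_sum_card_fiberwise (f := fun p : k × k => p.1 + 1) (t := Finset.univ)
    (fun _ _ => Finset.mem_coe.mpr (Finset.mem_univ _))]
  refine Finset.sum_congr rfl fun x _ => ?_
  refine Finset.card_bij (fun p _ => u ^ 2 * p.2) ?_ ?_ ?_
  · rintro ⟨a, b⟩ hp
    simp only [Finset.mem_filter, Finset.mem_univ, true_and] at hp ⊢
    obtain ⟨h1, rfl⟩ := hp
    linear_combination u * h1 + u * b ^ 2 * hu3 - u * (a ^ 2 + a + 1) * h2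
  · rintro ⟨a, b⟩ hp ⟨a', b'⟩ hp' h
    simp only [Finset.mem_filter, Finset.mem_univ, true_and] at hp hp' h
    rw [Prod.mk.injEq]
    refine ⟨?_, mul_left_cancel₀ (pow_ne_zero 2 hu0) h⟩
    linear_combination hp.2 - hp'.2
  · intro b hb
    simp only [Finset.mem_filter, Finset.mem_univ, true_and] at hb
    refine ⟨(x - 1, u * b), ?_, ?_⟩
    · simp only [Finset.mem_filter, Finset.mem_univ, true_and, sub_add_cancel, and_true]
      linear_combination u ^ 2 * hb + (x ^ 3 + 1) * hu3 + (x ^ 2 - x + 1) * h2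
    · change u ^ 2 * (u * b) = b
      linear_combination b * hu3

private theorem TWO_fermat {k : Type*} [Field k] [Fintype k] [DecidableEq k]
    (h3 : (3 : k) ≠ 0) :
    Nat.card (S4.fermatCubic k).toAffine.Point =
      1 + ∑ x : k, (Finset.univ.filter fun y : k => y ^ 2 + y = x ^ 3).card := by
  rw [S4.u4_card_point h3]
  congr 1
  simp_rw [Finset.card_filter]
  rw [Finset.sum_comm]
  refine Finset.sum_congr rfl fun x _ => Finset.sum_congr rfl fun y _ => ?_
  simp only [eq_comm]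

private theorem TWO_fiber {k : Type*} [Field k] [Fintype k] [DecidableEq k]
    (h2 : (2 : k) = 0) (t : k) :
    (Finset.univ.filter fun y : k => y ^ 2 + y = t).card =
      if ∃ s : k, s ^ 2 + s = t then 2 else 0 := by
  classical
  split_ifs with h
  · obtain ⟨s, rfl⟩ := h
    have e : (Finset.univ.filter fun y : k => y ^ 2 + y = s ^ 2 + s) = {s, s + 1} := by
      ext y
      simp only [Finset.mem_filter, Finset.mem_univ, true_and, Finset.mem_insert,
        Finset.mem_singleton]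
      constructor
      · intro hy
        have h1 : (y - s) * (y - (s + 1)) = 0 := by
          linear_combination hy + (-s * y - y + s ^ 2 + s) * h2
        rcases mul_eq_zero.mp h1 with h | h
        · exact Or.inl (sub_eq_zero.mp h)
        · exact Or.inr (sub_eq_zero.mp h)
      · rintro (rfl | rfl)
        · rfl
        · linear_combination (s + 1) * h2
    rw [e, Finset.card_pair]
    intro h
    exact one_ne_zero (left_eq_add.mp h)
  · rw [Finset.card_eq_zero, Finset.filter_eq_empty_iff]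
    intro y _ hy
    exact h ⟨y, hy⟩

private theorem TWO_not_as {k : Type*} [Field k] [Fintype k] (f : ℕ)
    (hk : Fintype.card k = 4 ^ f) (hodd : Odd f) (h2 : (2 : k) = 0) (u : k)
    (hu : u ^ 2 + u + 1 = 0) : ¬ ∃ s : k, s ^ 2 + s = u := by
  rintro ⟨s, hs⟩
  have h4 : s ^ 4 = s + 1 := by
    linear_combination (s ^ 2 - s + u + 1) * hs + hu - ((1 + u) * s + 1) * h2
  have h16 : ∀ m : ℕ, s ^ (16 ^ m) = s := by
    intro m
    induction m with
    | zero => simp
    | succ m ih =>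
      rw [pow_succ, pow_mul, ih]
      have e : s ^ 16 = (s ^ 4) ^ 4 := by ring
      rw [e, h4]
      linear_combination h4 + (2 * s ^ 3 + 3 * s ^ 2 + 2 * s + 1) * h2
  obtain ⟨m, rfl⟩ := hodd
  have h5 := FiniteField.pow_card s
  rw [hk, pow_succ, pow_mul, pow_mul] at h5
  norm_num at h5
  rw [h16, h4] at h5
  exact one_ne_zero (add_eq_left.mp h5)

private theorem TWO_card_one {k : Type*} [Field k] [Fintype k] (hk : Fintype.card k = 4)
    (h2 : (2 : k) = 0) (u : k) (hu : u ^ 2 + u + 1 = 0) :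
    Nat.card (W49 u).toAffine.Point = 7 := by
  classical
  have hu0 : u ≠ 0 := by
    rintro rfl
    norm_num at hu
  rw [TWO_card_point h2 u hu]
  have hx : ∀ x : k, (Finset.univ.filter fun y : k => y ^ 2 + y = u * x ^ 3 + u).card =
      if x = 0 then 0 else 2 := by
    intro x
    rw [TWO_fiber h2]
    split_ifs with h1 h h
    · exfalso
      refine TWO_not_as 1 (by rw [hk, pow_one]) odd_one h2 u hu ?_
      rw [h] at h1
      obtain ⟨s, hs⟩ := h1
      exact ⟨s, by linear_combination hs⟩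
    · rfl
    · rfl
    · exfalso
      apply h1
      refine ⟨0, ?_⟩
      have h3 : x ^ 3 = 1 := by
        have h5 := FiniteField.pow_card_sub_one_eq_one x h
        rwa [hk] at h5
      linear_combination -u * h3 - u * h2
  simp_rw [hx]
  rw [Finset.sum_ite, Finset.sum_const_zero, zero_add, Finset.sum_const, Finset.filter_ne',
    Finset.card_erase_of_mem (Finset.mem_univ _), Finset.card_univ, hk]
  norm_num

private theorem TWO_cube {k : Type*} [Field k] [Fintype k] (f : ℕ)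
    (hk : Fintype.card k = 4 ^ f) (h3 : 3 ∣ f) (u : k) (hu : u ^ 3 = 1) :
    ∃ z : k, z ≠ 0 ∧ z ^ 3 = u := by
  classical
  have hu0 : u ≠ 0 := by
    rintro rfl
    norm_num at hu
  obtain ⟨g, hg⟩ := IsCyclic.exists_generator (α := kˣ)
  obtain ⟨i, hi⟩ := Subgroup.mem_zpowers_iff.mp (hg (Units.mk0 u hu0))
  have hord : orderOf g = 4 ^ f - 1 := by
    rw [orderOf_eq_card_of_forall_mem_zpowers hg, Nat.card_eq_fintype_card, Fintype.card_units, hk]
  have h9 : 9 ∣ 4 ^ f - 1 := by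
    obtain ⟨m, rfl⟩ := h3
    rw [pow_mul]
    have h64 : (4 ^ 3 : ℕ) ≡ 1 [MOD 9] := by decide
    have h5 := h64.pow m
    rw [one_pow] at h5
    exact (Nat.modEq_iff_dvd' (Nat.one_le_pow _ _ (by norm_num))).mp h5.symm
  have h6 : g ^ (i * 3) = 1 := by
    rw [zpow_mul, hi]
    ext
    push_cast
    exact_mod_cast hu
  have h7 : ((4 ^ f - 1 : ℕ) : ℤ) ∣ i * 3 := by
    rw [← hord]
    exact orderOf_dvd_iff_zpow_eq_one.mpr h6
  have h8 : (9 : ℤ) ∣ i * 3 := (by exact_mod_cast h9 : (9 : ℤ) ∣ ((4 ^ f - 1 : ℕ) : ℤ)).trans h7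
  obtain ⟨j, rfl⟩ : (3 : ℤ) ∣ i := by omega
  refine ⟨((g ^ j : kˣ) : k), Units.ne_zero _, ?_⟩
  have h10 : (g ^ j) ^ 3 = Units.mk0 u hu0 := by
    rw [← hi, mul_comm 3 j, zpow_mul]
    rfl
  rw [← Units.val_pow_eq_pow_val, h10]
  rfl

private theorem TWO_card_three {k : Type*} [Field k] [Fintype k] (f : ℕ)
    (hk : Fintype.card k = 4 ^ f) (h3 : 3 ∣ f) (hodd : Odd f) (h2 : (2 : k) = 0) (u : k)
    (hu : u ^ 2 + u + 1 = 0) :
    Nat.card (W49 u).toAffine.Point + Nat.card (S4.fermatCubic k).toAffine.Point =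
      2 * 4 ^ f + 2 := by
  classical
  have h30 : (3 : k) ≠ 0 := by
    intro h
    exact one_ne_zero (by linear_combination h - h2 : (1 : k) = 0)
  have hu3 : u ^ 3 = 1 := by linear_combination (u - 1) * hu
  obtain ⟨z, hz0, hz⟩ := TWO_cube f hk h3 u hu3
  have hno := TWO_not_as f hk hodd h2 u hu
  rw [TWO_card_point h2 u hu, TWO_fermat h30]
  have hb : Function.Bijective (fun x : k => z * x) := by
    rw [← Finite.injective_iff_bijective]
    intro a b h
    exact mul_left_cancel₀ hz0 h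
  have e1 : ∑ x : k, (Finset.univ.filter fun y : k => y ^ 2 + y = x ^ 3).card =
      ∑ x : k, (Finset.univ.filter fun y : k => y ^ 2 + y = u * x ^ 3).card := by
    rw [← hb.sum_comp (fun x => (Finset.univ.filter fun y : k => y ^ 2 + y = x ^ 3).card)]
    refine Finset.sum_congr rfl fun x _ => ?_
    rw [mul_pow, hz]
  rw [e1]
  have e2 : ∀ x : k, (Finset.univ.filter fun y : k => y ^ 2 + y = u * x ^ 3 + u).card +
      (Finset.univ.filter fun y : k => y ^ 2 + y = u * x ^ 3).card = 2 := by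
    intro x
    have h8 := DY.exists_as_iff h2 (u * x ^ 3) u
    rw [TWO_fiber h2, TWO_fiber h2]
    by_cases h : ∃ s : k, s ^ 2 + s = u * x ^ 3
    · rw [if_neg (fun h' => hno ((h8.mp h').mp h)), if_pos h]
    · rw [if_pos (h8.mpr ⟨fun h' => absurd h' h, fun h' => absurd h' hno⟩), if_neg h]
  have e3 : ∑ x : k, (Finset.univ.filter fun y : k => y ^ 2 + y = u * x ^ 3 + u).card +
      ∑ x : k, (Finset.univ.filter fun y : k => y ^ 2 + y = u * x ^ 3).card = 2 * 4 ^ f := by
    rw [← Finset.sum_add_distrib]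
    simp_rw [e2]
    rw [Finset.sum_const, Finset.card_univ, hk, smul_eq_mul, mul_comm]
  omega

private theorem TWO_under {F : Type*} [Field F] [NumberField F] [Algebra K F]
    (w : HeightOneSpectrum (𝓞 F)) (h2 : (2 : 𝓞 F) ∈ w.asIdeal) :
    w.asIdeal.under (𝓞 K) = Ideal.span {((2 : ℕ) : 𝓞 K)} := by
  have hPp : (w.asIdeal.under (𝓞 K)).IsPrime := inferInstance
  have hp2 : Fact (Nat.Prime 2) := ⟨Nat.prime_two⟩
  have h2P : ((2 : ℕ) : 𝓞 K) ∈ w.asIdeal.under (𝓞 K) := by
    change algebraMap (𝓞 K) (𝓞 F) ((2 : ℕ) : 𝓞 K) ∈ w.asIdeal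
    rw [map_natCast]
    exact_mod_cast h2
  exact S4.u4_prime_two 2 (by norm_num) S4.omO S4.omO_eq (w.asIdeal.under (𝓞 K)) h2P

private theorem TWO_two {F : Type*} [Field F] [NumberField F] [Algebra K F]
    (w : HeightOneSpectrum (𝓞 F)) (h2 : (2 : 𝓞 F) ∈ w.asIdeal) :
    (2 : IsLocalRing.ResidueField (w.adicCompletionIntegers F)) = 0 := by
  have h : redMap K w 2 = 0 := by
    rw [← RingHom.mem_ker, redMap_ker]
    change algebraMap (𝓞 K) (𝓞 F) 2 ∈ w.asIdeal
    rw [map_ofNat]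
    exact h2
  rw [← h, map_ofNat]

private theorem TWO_u {F : Type*} [Field F] [NumberField F] [Algebra K F]
    (w : HeightOneSpectrum (𝓞 F)) :
    (redMap K w omO) ^ 2 + redMap K w omO + 1 = 0 := by
  rw [← map_pow, ← map_add, ← map_one (redMap K w), ← map_add, omO_eq, map_zero]

private theorem TWO_fermat_place {F : Type*} [Field F] [NumberField F] [Algebra K F]
    (w : HeightOneSpectrum (𝓞 F)) (h2 : (2 : 𝓞 F) ∈ w.asIdeal)
    (hn : nrm w = 4 ^ w.asIdeal.inertiaDeg (𝓞 K)) (hodd : Odd (w.asIdeal.inertiaDeg (𝓞 K))) :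
    (Nat.card (S4.fermatCubic
      (IsLocalRing.ResidueField (w.adicCompletionIntegers F))).toAffine.Point : ℤ) =
      4 ^ w.asIdeal.inertiaDeg (𝓞 K) + 1 + 2 * 2 ^ w.asIdeal.inertiaDeg (𝓞 K) := by
  have h3 : (3 : 𝓞 F) ∉ w.asIdeal := by
    intro h
    apply w.isPrime.ne_top
    rw [Ideal.eq_top_iff_one]
    have e : (1 : 𝓞 F) = 3 - 2 := by norm_num
    rw [e]
    exact Ideal.sub_mem _ h h2
  obtain ⟨f, hf, hpsi⟩ := S4.psi_dyadic w h2
  have e : S4.psiC F w.asIdeal = (-2 : ℂ) ^ f := by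
    rw [S4.psiC, hpsi]
    change embK (algebraMap (𝓞 K) K ((-2) ^ f)) = _
    rw [map_pow, map_pow, map_neg, map_neg, map_ofNat, map_ofNat]
  have eb : S4.psibC F w.asIdeal = (-2 : ℂ) ^ f := by
    rw [S4.psibC, e, map_pow, map_neg, map_ofNat]
  obtain ⟨h5, h6⟩ := S4.psi_place w h3
  rw [e, eb, hn] at h5
  have h7 : f = w.asIdeal.inertiaDeg (𝓞 K) := by
    have h8 : (4 : ℂ) ^ f = 4 ^ w.asIdeal.inertiaDeg (𝓞 K) := by
      rw [← mul_pow] at h5
      push_cast at h5
      norm_num at h5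
      exact_mod_cast h5
    have h9 : (4 : ℕ) ^ f = 4 ^ w.asIdeal.inertiaDeg (𝓞 K) := by exact_mod_cast h8
    exact Nat.pow_right_injective (by norm_num) h9
  have h10 := h6 1
  rw [S4.locPoly_model w h3, e, eb, h7, hn] at h10
  have hneg : (-2 : ℂ) ^ w.asIdeal.inertiaDeg (𝓞 K) = -2 ^ w.asIdeal.inertiaDeg (𝓞 K) :=
    hodd.neg_pow 2
  rw [hneg] at h10
  simp only [map_add, map_sub, map_mul, map_pow, Polynomial.aeval_X, Polynomial.aeval_C,
    map_one, mul_one, one_pow] at h10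
  have h11 : ((Nat.card (S4.fermatCubic
      (IsLocalRing.ResidueField (w.adicCompletionIntegers F))).toAffine.Point : ℤ) : ℂ) =
      (((4 : ℤ) ^ w.asIdeal.inertiaDeg (𝓞 K) + 1 + 2 * 2 ^ w.asIdeal.inertiaDeg (𝓞 K) : ℤ) : ℂ) := by
    have h12 : (2 : ℂ) ^ w.asIdeal.inertiaDeg (𝓞 K) * 2 ^ w.asIdeal.inertiaDeg (𝓞 K) =
        4 ^ w.asIdeal.inertiaDeg (𝓞 K) := by
      rw [← mul_pow]
      norm_num
    simp only [eq_intCast] at h10
    push_cast at h10 ⊢
    linear_combination h10 + h12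
  exact_mod_cast h11

section
variable {F : Type*} [Field F] [NumberField F] [Algebra K F]

theorem nrm_two (w : HeightOneSpectrum (𝓞 F)) (h2 : (2 : 𝓞 F) ∈ w.asIdeal) :
    nrm w = 4 ^ w.asIdeal.inertiaDeg (𝓞 K) := by
  have hP := TWO_under w h2
  have hlo : w.asIdeal.LiesOver (w.asIdeal.under (𝓞 K)) := ⟨rfl⟩
  have hwp : w.asIdeal.IsPrime := w.isPrime
  have h1 := Ideal.absNorm_pow_inertiaDeg (w.asIdeal.under (𝓞 K)) w.asIdeal
  rw [nrm_eq, ← h1, hP, S4.u4_absNorm_p]
  norm_num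

theorem relNorm_two (w : HeightOneSpectrum (𝓞 F)) (h2 : (2 : 𝓞 F) ∈ w.asIdeal) :
    Ideal.relNorm (𝓞 K) w.asIdeal = Ideal.span {(2 : 𝓞 K) ^ w.asIdeal.inertiaDeg (𝓞 K)} := by
  have hP := TWO_under w h2
  have hlo : w.asIdeal.LiesOver (w.asIdeal.under (𝓞 K)) := ⟨rfl⟩
  have hPb : w.asIdeal.under (𝓞 K) ≠ ⊥ := by
    rw [hP]
    intro h
    have := Ideal.span_singleton_eq_bot.mp h
    norm_num at this
  have hPmax : (w.asIdeal.under (𝓞 K)).IsMaximal := Ideal.IsPrime.isMaximal inferInstance hPb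
  have hvmax : w.asIdeal.IsMaximal := w.isMaximal
  rw [Ideal.relNorm_eq_pow_of_isMaximal w.asIdeal (w.asIdeal.under (𝓞 K)), hP,
    Ideal.span_singleton_pow]
  norm_num

/-- The number of points at a place above `2` of residue degree `1`. -/
theorem card_two_one (w : HeightOneSpectrum (𝓞 F)) (h2 : (2 : 𝓞 F) ∈ w.asIdeal)
    (hf : w.asIdeal.inertiaDeg (𝓞 K) = 1) :
    Nat.card (W49 (redMap K w omO)).toAffine.Point = 7 := by
  classical
  have hfin : Finite (IsLocalRing.ResidueField (w.adicCompletionIntegers F)) := finite_residue w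
  have _ := Fintype.ofFinite (IsLocalRing.ResidueField (w.adicCompletionIntegers F))
  have hn := nrm_two w h2
  rw [hf, pow_one] at hn
  refine TWO_card_one ?_ (TWO_two w h2) _ (TWO_u w)
  rw [← Nat.card_eq_fintype_card]
  exact hn

/-- The number of points at a place above `2` whose residue degree is an odd multiple of `3`. -/
theorem card_two_three (w : HeightOneSpectrum (𝓞 F)) (h2 : (2 : 𝓞 F) ∈ w.asIdeal)
    (hf : 3 ∣ w.asIdeal.inertiaDeg (𝓞 K)) (hodd : Odd (w.asIdeal.inertiaDeg (𝓞 K))) :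
    (Nat.card (W49 (redMap K w omO)).toAffine.Point : ℤ) =
      4 ^ w.asIdeal.inertiaDeg (𝓞 K) + 1 - 2 * 2 ^ w.asIdeal.inertiaDeg (𝓞 K) := by
  classical
  have hfin : Finite (IsLocalRing.ResidueField (w.adicCompletionIntegers F)) := finite_residue w
  have _ := Fintype.ofFinite (IsLocalRing.ResidueField (w.adicCompletionIntegers F))
  have hn := nrm_two w h2
  have hk : Fintype.card (IsLocalRing.ResidueField (w.adicCompletionIntegers F)) =
      4 ^ w.asIdeal.inertiaDeg (𝓞 K) := by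
    rw [← Nat.card_eq_fintype_card]
    exact hn
  have h1 := TWO_card_three _ hk hf hodd (TWO_two w h2) _ (TWO_u w)
  have h3 := TWO_fermat_place w h2 hn hodd
  have h4 : (Nat.card (W49 (redMap K w omO)).toAffine.Point : ℤ) +
      Nat.card (S4.fermatCubic
        (IsLocalRing.ResidueField (w.adicCompletionIntegers F))).toAffine.Point =
      2 * 4 ^ w.asIdeal.inertiaDeg (𝓞 K) + 2 := by exact_mod_cast h1
  linarith

end

end Pool.Agent.Lib.MP_1a91b9_ntT3.EF
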