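import Pool.Agent.Lib.MP_1a91b9_ntT3.EF.Cubic
import Pool.Agent.Lib.MP_1a91b9_ntT3.EF.Quad
import Pool.Agent.Lib.MP_1a91b9_ntT3.EF.Cnt
import Pool.Agent.Lib.MP_1a91b9_ntT3.EF.Two
import Pool.Agent.Lib.MP_1a91b9_ntT3.EF.Three
import Pool.Agent.Lib.MP_1a91b9_ntT3.EF.Bad
import Pool.Agent.Lib.MP_1a91b9_ntT3.EF.Tower
import Pool.Agent.Lib.MP_1a91b9_ntT3.Mod

/-!
# EF: the L-series of `E49` over `F` is the product of the two Hecke L-series
-/

set_option autoImplicit false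

namespace Pool.Agent.Lib.MP_1a91b9_ntT3.EF

open NumberField IsDedekindDomain Polynomial Pool.Agent.Lib.MP_1a91b9_nt
open Pool.Agent.Lib.MP_1a91b9_ntT Pool.Agent.Lib.MP_1a91b9_ntT.S4 Pool.Agent.Lib.MP_1a91b9_ntG

section
variable {F : Type*} [Field F] [NumberField F] [Algebra K F]

/-- From the number of points to the local polynomial. -/
theorem finish (w : HeightOneSpectrum (𝓞 F)) (hv : algebraMap (𝓞 K) (𝓞 F) vp ∉ w.asIdeal)
    (a b : ℂ) (hN : a * b = (nrm w : ℂ))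
    (hc : (Nat.card (W49 (redMap K w MP_1a91b9_ntT3.omO)).toAffine.Point : ℂ) =
      (nrm w : ℂ) + 1 - (a + b)) (x : ℂ) :
    aeval x (locPoly (E49 F) w) = (1 - a * x) * (1 - b * x) := by
  rw [locPoly_good w hv]
  simp only [map_add, map_sub, map_one, map_mul, aeval_X, map_pow, map_natCast]
  rw [hc]
  linear_combination (-x ^ 2) * hN

theorem emb_omO : emb MP_1a91b9_ntT3.omO = zt := embK_om

theorem zt_eq : zt ^ 2 + zt + 1 = 0 := by
  have h2 := congrArg emb EF.omO_eq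
  simp only [map_add, map_pow, map_one, map_zero, emb_omO] at h2
  exact h2

theorem zt_mul_conj : zt * (starRingEnd ℂ) zt = 1 := by
  rw [conj_zt]
  linear_combination -zt_eq

/-- The places not above `2`, `3` and `1 + 3 ω`. -/
theorem exists_psi_general (w : HeightOneSpectrum (𝓞 F)) (h2 : (2 : 𝓞 F) ∉ w.asIdeal)
    (h3 : (3 : 𝓞 F) ∉ w.asIdeal) (hv : algebraMap (𝓞 K) (𝓞 F) vp ∉ w.asIdeal) :
    ∃ γ : 𝓞 K, piO ∣ γ - 1 ∧ Ideal.span {γ} = Ideal.relNorm (𝓞 K) w.asIdeal ∧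
      emb γ * (starRingEnd ℂ) (emb γ) = (nrm w : ℂ) ∧
      ∀ x : ℂ, aeval x (locPoly (E49 F) w) =
        (1 - emb γ * x) * (1 - (starRingEnd ℂ) (emb γ) * x) := by
  classical
  have hfin : Finite (Rk w) := finite_residue w
  have := Fintype.ofFinite (Rk w)
  obtain ⟨m, χ, h⟩ := exists_jac w h3
  obtain ⟨e, he, hes, hev⟩ := quad_rec w h2 h3 hv _ h.mod h.span
  have hχv := cubic_vp w h3 hv m χ h
  set J := jacobiSum χ χ with hJ
  set c := χ (redMap K w vp) with hc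
  have hvp0 : redMap K w vp ≠ 0 := by
    intro h0
    apply hv
    have h1 : vp ∈ RingHom.ker (redMap K w) := h0
    rw [redMap_ker] at h1
    exact h1
  have hω3 : MP_1a91b9_ntT3.omO ^ 3 = 1 := by
    linear_combination (MP_1a91b9_ntT3.omO - 1) * EF.omO_eq
  have hc3 : c ^ 3 = 1 := by
    rcases h.val _ hvp0 with h4 | h4 | h4
    · rw [hc, h4, one_pow]
    · rw [hc, h4, hω3]
    · rw [hc, h4, ← pow_mul, mul_comm, pow_mul, hω3, one_pow]
  have he2 : (e : 𝓞 K) ^ 2 = 1 := by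
    rcases he with h4 | h4 <;> rw [h4] <;> norm_num
  have he2C : (e : ℂ) ^ 2 = 1 := by
    rcases he with h4 | h4 <;> rw [h4] <;> norm_num
  have heC : (starRingEnd ℂ) (e : ℂ) = (e : ℂ) := map_intCast _ _
  have hJJ : emb J * (starRingEnd ℂ) (emb J) = (nrm w : ℂ) := by
    rw [h.conj, ← map_mul, h.mul, map_natCast]
  have hcn : ‖emb c‖ = 1 := by
    have h4 : emb c ^ 3 = 1 := by rw [← map_pow, hc3, map_one]
    exact Complex.norm_eq_one_of_pow_eq_one h4 (by norm_num)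
  have hcc : emb c * (starRingEnd ℂ) (emb c) = 1 := by
    rw [Complex.mul_conj, Complex.normSq_eq_norm_sq, hcn]
    norm_num
  have hNN : emb ((e : 𝓞 K) * c * (-J)) * (starRingEnd ℂ) (emb ((e : 𝓞 K) * c * (-J))) =
      (nrm w : ℂ) := by
    rw [map_mul, map_mul, map_neg, map_intCast, map_mul, map_mul, map_neg, heC]
    linear_combination (e : ℂ) ^ 2 * (emb J * (starRingEnd ℂ) (emb J)) * hcc +
      (emb J * (starRingEnd ℂ) (emb J)) * he2C + hJJ
  refine ⟨(e : 𝓞 K) * c * (-J), ?_, ?_, hNN, ?_⟩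
  · rw [← vp_dvd_iff]
    have e1 : (e : 𝓞 K) * c * (-J) - 1 = (e : 𝓞 K) * (-J) * (c - J ^ 2) +
        -(e : 𝓞 K) * ((e : 𝓞 K) - (-J) ^ 3) + ((e : 𝓞 K) ^ 2 - 1) := by ring
    rw [e1, he2, sub_self, add_zero]
    exact dvd_add (Dvd.dvd.mul_left hχv _) (Dvd.dvd.mul_left hev _)
  · rw [← h.span, Ideal.span_singleton_eq_span_singleton]
    refine ⟨⟨(e : 𝓞 K) * c ^ 2, (e : 𝓞 K) * c, ?_, ?_⟩, ?_⟩
    · linear_combination c ^ 3 * he2 + hc3
    · linear_combination c ^ 3 * he2 + hc3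
    · change (e : 𝓞 K) * c * (-J) * ((e : 𝓞 K) * c ^ 2) = -J
      linear_combination (-J) * c ^ 3 * he2 + (-J) * hc3
  · intro x
    refine finish w hv _ _ hNN ?_ x
    have h2k : (2 : Rk w) ≠ 0 := by
      intro h4
      have h5 : (2 : 𝓞 K) ∈ RingHom.ker (redMap K w) := by
        rw [RingHom.mem_ker, map_ofNat]; exact h4
      rw [redMap_ker] at h5
      apply h2
      have h6 : algebraMap (𝓞 K) (𝓞 F) 2 ∈ w.asIdeal := h5
      rwa [map_ofNat] at h6
    have h3k := three_ne_zero_of w h3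
    have hw : redMap K w MP_1a91b9_ntT3.omO ^ 2 + redMap K w MP_1a91b9_ntT3.omO + 1 = 0 := by
      rw [← map_pow, ← map_add, ← map_one (redMap K w), ← map_add, EF.omO_eq, map_zero]
    have hvpe : 1 + 3 * redMap K w MP_1a91b9_ntT3.omO = redMap K w vp := by
      unfold vp
      rw [map_add, map_mul, map_one, map_ofNat]
    have hlame : 1 + 2 * redMap K w MP_1a91b9_ntT3.omO = redMap K w lam := by
      unfold lam
      rw [map_add, map_mul, map_one, map_ofNat]
    have hcard : Fintype.card (Rk w) = nrm w := by rw [nrm, Nat.card_eq_fintype_card]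
    have hcount := card_W49 h2k h3k (χ.ringHomComp emb)
      (by
        rw [Ne, MulChar.ringHomComp_eq_one_iff emb_injective]
        exact h.ne)
      (by rw [MulChar.ringHomComp_pow, h.cube, MulChar.ringHomComp_one])
      (by rw [h.card]; exact Dvd.intro _ rfl) (redMap K w MP_1a91b9_ntT3.omO) hw
      (by rw [hvpe]; exact hvp0) e he (by rw [hlame, hvpe, ← map_mul]; exact hes)
    have hinv : (χ.ringHomComp emb)⁻¹ = (χ ^ 2).ringHomComp emb := by
      rw [← u4_inv_eq χ h.cube]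
      exact MulChar.ringHomComp_inv _ _
    have hinvv : (χ.ringHomComp emb)⁻¹ (redMap K w vp) = (starRingEnd ℂ) (emb c) := by
      rw [MulChar.inv_apply_eq_inv']
      change (emb c)⁻¹ = _
      rw [inv_eq_of_mul_eq_one_right hcc]
    rw [hvpe, hinvv, hinv, jacobiSum_ringHomComp, jacobiSum_ringHomComp, hcard, ← hJ, ← h.conj]
      at hcount
    have hcc' : (χ.ringHomComp emb) (redMap K w vp) = emb c := rfl
    rw [hcc'] at hcount
    rw [hcount, map_mul, map_mul, map_neg, map_intCast, map_mul, map_mul, map_neg, heC]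
    ring

theorem relNorm_of_prime (w : HeightOneSpectrum (𝓞 F)) (a : 𝓞 K) (ha0 : a ≠ 0)
    (ha : (Ideal.span {a}).IsPrime) (hmem : algebraMap (𝓞 K) (𝓞 F) a ∈ w.asIdeal) :
    Ideal.relNorm (𝓞 K) w.asIdeal = Ideal.span {a ^ w.asIdeal.inertiaDeg (𝓞 K)} ∧
      nrm w = Ideal.absNorm (Ideal.span {a}) ^ w.asIdeal.inertiaDeg (𝓞 K) := by
  set P := w.asIdeal.under (𝓞 K) with hP
  have haP : a ∈ P := hmem
  have hPprime : P.IsPrime := inferInstance
  have hmax : (Ideal.span {a}).IsMaximal := ha.isMaximal (by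
    rw [Ne, Ideal.span_singleton_eq_bot]
    exact ha0)
  have hPe : P = Ideal.span {a} :=
    (hmax.eq_of_le hPprime.ne_top ((Ideal.span_singleton_le_iff_mem _).2 haP)).symm
  have hPmax : P.IsMaximal := by rw [hPe]; exact hmax
  have hlo : w.asIdeal.LiesOver P := ⟨rfl⟩
  have hwmax : w.asIdeal.IsMaximal := w.isMaximal
  have hrel : Ideal.relNorm (𝓞 K) w.asIdeal = P ^ w.asIdeal.inertiaDeg (𝓞 K) :=
    Ideal.relNorm_eq_pow_of_isMaximal w.asIdeal P
  refine ⟨?_, ?_⟩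
  · rw [hrel, hPe, Ideal.span_singleton_pow]
  · rw [nrm_eq, ← hPe, Ideal.absNorm_pow_inertiaDeg P w.asIdeal]

/-- The prime above `3`. -/
noncomputable def l3 : 𝓞 K := MP_1a91b9_ntT3.omO - 1

theorem l3_cube : l3 ^ 3 = 3 * lam := by
  unfold l3 lam
  linear_combination (MP_1a91b9_ntT3.omO - 4) * EF.omO_eq

theorem l3_sq : l3 ^ 2 = -3 * MP_1a91b9_ntT3.omO := by
  unfold l3
  linear_combination EF.omO_eq

theorem absNorm_l3 : Ideal.absNorm (Ideal.span {l3}) = 3 := by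
  obtain ⟨σ, hσ⟩ := u4_conj MP_1a91b9_ntT3.omO EF.omO_eq
  have hσv : σ l3 = -2 - MP_1a91b9_ntT3.omO := by
    unfold l3
    rw [map_sub, map_one, hσ]
    ring
  have e1 : Ideal.absNorm (Ideal.span {-2 - MP_1a91b9_ntT3.omO}) =
      Ideal.absNorm (Ideal.span {l3}) := by
    rw [Ideal.absNorm_span_singleton, Ideal.absNorm_span_singleton, ← hσv]
    congr 1
    let σ' : 𝓞 K ≃ₐ[ℤ] 𝓞 K := AlgEquiv.ofRingEquiv (f := σ) (fun n => by simp)
    exact Algebra.norm_eq_of_algEquiv σ' l3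
  have e2 : Ideal.absNorm (Ideal.span {l3}) * Ideal.absNorm (Ideal.span {-2 - MP_1a91b9_ntT3.omO})
      = 3 ^ 2 := by
    rw [← map_mul, Ideal.span_singleton_mul_span_singleton]
    have e3 : l3 * (-2 - MP_1a91b9_ntT3.omO) = 3 := by
      unfold l3
      linear_combination -EF.omO_eq
    rw [e3]
    have := u4_absNorm_p (K := K) 3
    rwa [Nat.cast_ofNat] at this
  rw [e1, ← pow_two] at e2
  exact (Nat.pow_left_injective (n := 2) (by norm_num)) e2

theorem l3_prime_ideal : (Ideal.span {l3}).IsPrime := by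
  refine Ideal.isPrime_of_irreducible_absNorm ?_
  rw [absNorm_l3]
  exact (Nat.prime_iff.mp Nat.prime_three).irreducible

theorem l3_ne_zero : l3 ≠ 0 := by
  intro h
  have := absNorm_l3
  rw [h, Ideal.span_singleton_eq_bot.mpr rfl, Ideal.absNorm_bot] at this
  norm_num at this

/-- A power of three is one or an odd multiple of three. -/
theorem pow_three_cases (f : ℕ) (hf : ∃ n : ℕ, f = 3 ^ n) : f = 1 ∨ ∃ g : ℕ, f = 3 * g ∧ Odd g := by
  obtain ⟨n, rfl⟩ := hf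
  cases n with
  | zero => left; rfl
  | succ n => exact Or.inr ⟨3 ^ n, by ring, Odd.pow (by decide)⟩

/-- The places above `3`. -/
theorem exists_psi_three (w : HeightOneSpectrum (𝓞 F)) (h3 : (3 : 𝓞 F) ∈ w.asIdeal)
    (hv : algebraMap (𝓞 K) (𝓞 F) vp ∉ w.asIdeal)
    (hf : ∃ n : ℕ, w.asIdeal.inertiaDeg (𝓞 K) = 3 ^ n) :
    ∃ γ : 𝓞 K, piO ∣ γ - 1 ∧ Ideal.span {γ} = Ideal.relNorm (𝓞 K) w.asIdeal ∧
      emb γ * (starRingEnd ℂ) (emb γ) = (nrm w : ℂ) ∧
      ∀ x : ℂ, aeval x (locPoly (E49 F) w) =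
        (1 - emb γ * x) * (1 - (starRingEnd ℂ) (emb γ) * x) := by
  have hmem : algebraMap (𝓞 K) (𝓞 F) l3 ∈ w.asIdeal := by
    have h1 : algebraMap (𝓞 K) (𝓞 F) l3 ^ 2 ∈ w.asIdeal := by
      rw [← map_pow, l3_sq, map_mul, map_neg, map_ofNat]
      exact Ideal.mul_mem_right _ _ (neg_mem h3)
    exact w.isPrime.mem_of_pow_mem 2 h1
  obtain ⟨hr, hn⟩ := relNorm_of_prime w l3 l3_ne_zero l3_prime_ideal hmem
  rw [absNorm_l3] at hn
  set f := w.asIdeal.inertiaDeg (𝓞 K) with hfdef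
  have hembl : emb l3 = zt - 1 := by unfold l3; rw [map_sub, map_one, emb_omO]
  have hconjl : (starRingEnd ℂ) (emb l3) = -2 - zt := by
    rw [hembl, map_sub, map_one, conj_zt]
    ring
  have hNN : emb (l3 ^ f) * (starRingEnd ℂ) (emb (l3 ^ f)) = (nrm w : ℂ) := by
    rw [map_pow, map_pow, ← mul_pow, hconjl, hembl, hn, Nat.cast_pow]
    congr 1
    push_cast
    linear_combination -zt_eq
  refine ⟨l3 ^ f, ?_, hr.symm, hNN, ?_⟩
  · have h1 : piO = l3 - 1 := by unfold piO l3; ring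
    have h2 := sub_dvd_pow_sub_pow l3 1 f
    rw [one_pow, ← h1] at h2
    exact h2
  · intro x
    refine finish w hv _ _ hNN ?_ x
    have hw : redMap K w MP_1a91b9_ntT3.omO ^ 2 + redMap K w MP_1a91b9_ntT3.omO + 1 = 0 := by
      rw [← map_pow, ← map_add, ← map_one (redMap K w), ← map_add, EF.omO_eq, map_zero]
    rcases pow_three_cases f hf with h1 | ⟨g, h1, hg⟩
    · have hk : Nat.card (Rk w) = 3 := by
        have : nrm w = 3 := by rw [hn, h1, pow_one]
        exact this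
      rw [card_W49_three hk _ hw, h1, pow_one, hconjl, hembl, hn, h1]
      push_cast
      ring
    · have hk : Nat.card (Rk w) = 3 ^ f := hn
      have hodd : Odd f := by rw [h1]; exact (by decide : Odd 3).mul hg
      rw [card_W49_three_pow f hk ⟨g, h1⟩ hodd _ hw, hn]
      have h2 : emb (l3 ^ f) = (3 * (1 + 2 * zt)) ^ g := by
        rw [h1, pow_mul, l3_cube, map_pow]
        unfold lam
        rw [map_mul, map_add, map_mul, map_one, map_ofNat, map_ofNat, emb_omO]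
      have h3' : (starRingEnd ℂ) (emb (l3 ^ f)) = -(3 * (1 + 2 * zt)) ^ g := by
        rw [h2, map_pow, map_mul, map_add, map_mul, map_one, map_ofNat, map_ofNat, conj_zt,
          ← hg.neg_pow]
        congr 1
        ring
      rw [h3', h2]
      push_cast
      ring

/-- The places above `2`. -/
theorem exists_psi_two (w : HeightOneSpectrum (𝓞 F)) (h2 : (2 : 𝓞 F) ∈ w.asIdeal)
    (hv : algebraMap (𝓞 K) (𝓞 F) vp ∉ w.asIdeal)
    (hf : ∃ n : ℕ, w.asIdeal.inertiaDeg (𝓞 K) = 3 ^ n) :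
    ∃ γ : 𝓞 K, piO ∣ γ - 1 ∧ Ideal.span {γ} = Ideal.relNorm (𝓞 K) w.asIdeal ∧
      emb γ * (starRingEnd ℂ) (emb γ) = (nrm w : ℂ) ∧
      ∀ x : ℂ, aeval x (locPoly (E49 F) w) =
        (1 - emb γ * x) * (1 - (starRingEnd ℂ) (emb γ) * x) := by
  have hr := relNorm_two w h2
  have hn := nrm_two w h2
  set f := w.asIdeal.inertiaDeg (𝓞 K) with hfdef
  set b : 𝓞 K := 2 * MP_1a91b9_ntT3.omO ^ 2 with hb
  have hω3 : MP_1a91b9_ntT3.omO ^ 3 = 1 := by
    linear_combination (MP_1a91b9_ntT3.omO - 1) * EF.omO_eq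
  have hz3 : zt ^ 3 = 1 := by linear_combination (zt - 1) * zt_eq
  have hembl : emb b = 2 * zt ^ 2 := by rw [hb, map_mul, map_pow, map_ofNat, emb_omO]
  have hconjl : (starRingEnd ℂ) (emb b) = 2 * zt := by
    rw [hembl, map_mul, map_pow, map_ofNat, conj_zt]
    linear_combination 2 * zt_eq
  have hNN : emb (b ^ f) * (starRingEnd ℂ) (emb (b ^ f)) = (nrm w : ℂ) := by
    rw [map_pow, map_pow, ← mul_pow, hconjl, hembl, hn, Nat.cast_pow]
    congr 1
    push_cast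
    linear_combination 4 * hz3
  refine ⟨b ^ f, ?_, ?_, hNN, ?_⟩
  · have h1 : piO ∣ b - 1 := by
      refine ⟨1 + MP_1a91b9_ntT3.omO, ?_⟩
      rw [hb]
      unfold piO
      linear_combination EF.omO_eq
    have h2 := sub_dvd_pow_sub_pow b 1 f
    rw [one_pow] at h2
    exact h1.trans h2
  · rw [hr, Ideal.span_singleton_eq_span_singleton]
    refine ⟨⟨MP_1a91b9_ntT3.omO ^ f, (MP_1a91b9_ntT3.omO ^ 2) ^ f, ?_, ?_⟩, ?_⟩
    · rw [← mul_pow, ← pow_succ', hω3, one_pow]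
    · rw [← mul_pow, ← pow_succ, hω3, one_pow]
    · change b ^ f * MP_1a91b9_ntT3.omO ^ f = 2 ^ f
      rw [← mul_pow, hb]
      congr 1
      linear_combination 2 * hω3
  · intro x
    refine finish w hv _ _ hNN ?_ x
    rcases pow_three_cases f hf with h1 | ⟨g, h1, hg⟩
    · rw [card_two_one w h2 h1, h1, pow_one, hconjl, hembl, hn, h1]
      push_cast
      linear_combination 2 * zt_eq
    · have hodd : Odd f := by rw [h1]; exact (by decide : Odd 3).mul hg
      have h4 := card_two_three w h2 ⟨g, h1⟩ hodd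
      have h5 : (Nat.card (W49 (redMap K w MP_1a91b9_ntT3.omO)).toAffine.Point : ℂ) =
          4 ^ f + 1 - 2 * 2 ^ f := by exact_mod_cast h4
      have h6 : emb (b ^ f) = 2 ^ f := by
        rw [map_pow, hembl, mul_pow, ← pow_mul, h1, ← mul_assoc, mul_comm 2 3, mul_assoc,
          pow_mul zt 3, hz3, one_pow, mul_one]
      rw [h5, h6, hn, map_pow, map_ofNat]
      push_cast
      ring

/-- The local computation at every place not above `1 + 3 ω`. -/
theorem exists_psi49 (w : HeightOneSpectrum (𝓞 F))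
    (hv : algebraMap (𝓞 K) (𝓞 F) vp ∉ w.asIdeal)
    (hf : ∃ n : ℕ, w.asIdeal.inertiaDeg (𝓞 K) = 3 ^ n) :
    ∃ γ : 𝓞 K, piO ∣ γ - 1 ∧ Ideal.span {γ} = Ideal.relNorm (𝓞 K) w.asIdeal ∧
      emb γ * (starRingEnd ℂ) (emb γ) = (nrm w : ℂ) ∧
      ∀ x : ℂ, aeval x (locPoly (E49 F) w) =
        (1 - emb γ * x) * (1 - (starRingEnd ℂ) (emb γ) * x) := by
  by_cases h2 : (2 : 𝓞 F) ∈ w.asIdeal
  · exact exists_psi_two w h2 hv hf
  by_cases h3 : (3 : 𝓞 F) ∈ w.asIdeal
  · exact exists_psi_three w h3 hv hf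
  · exact exists_psi_general w h2 h3 hv

/-- The uniqueness of the generator. -/
theorem piO_unit_eq_one (u : (𝓞 K)ˣ) (h : piO ∣ (u : 𝓞 K) - 1) : u = 1 :=
  isMod_piO.inj u h

theorem psK_piO (a : 𝓞 K) (ha : piO ∣ a - 1) : psK piO (Ideal.span {a}) = a := by
  have h : ∃ b : 𝓞 K, piO ∣ b - 1 ∧ Ideal.span {b} = Ideal.span {a} := ⟨a, ha, rfl⟩
  rw [psK, dif_pos h]
  obtain ⟨h1, h2⟩ := h.choose_spec
  rw [Ideal.span_singleton_eq_span_singleton] at h2
  obtain ⟨u, hu⟩ := h2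
  have h3 : piO ∣ (u : 𝓞 K) - 1 := by
    have e : (u : 𝓞 K) - 1 = (a - 1) - (h.choose - 1) * u := by
      linear_combination hu
    rw [e]
    exact dvd_sub ha (Dvd.dvd.mul_right h1 _)
  rw [piO_unit_eq_one u h3, Units.val_one, mul_one] at hu
  exact hu

/-- `ψ_F` at the places not above `1 + 3 ω`. -/
theorem ps_place_good (w : HeightOneSpectrum (𝓞 F))
    (hv : algebraMap (𝓞 K) (𝓞 F) vp ∉ w.asIdeal)
    (hf : ∃ n : ℕ, w.asIdeal.inertiaDeg (𝓞 K) = 3 ^ n) :
    psC piO F w.asIdeal * psbC piO F w.asIdeal = (nrm w : ℂ) ∧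
    ∀ x : ℂ, aeval x (locPoly (E49 F) w) =
      (1 - psC piO F w.asIdeal * x) * (1 - psbC piO F w.asIdeal * x) := by
  obtain ⟨γ, h1, h2, h4, h5⟩ := exists_psi49 w hv hf
  have e : ps piO F w.asIdeal = γ := by
    rw [ps, ← h2, psK_piO γ h1]
  refine ⟨?_, fun x => ?_⟩
  · rw [psbC, psC, e]; exact h4
  · rw [psbC, psC, e]; exact h5 x

end

universe u

section
variable {F : Type u} [Field F] [NumberField F] [Algebra K F]

/-- `L(E49/F, s) = L(ψ_F, s) L(ψbar_F, s)`. -/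
theorem LSeries_E49 (h : TowerK3 F) (s : ℂ) (hs : 2 < s.re) :
    (E49 F).LSeries s = Lf (psC piO F) s * Lf (psbC piO F) s := by
  have hp := (hasProd_Lf (psC piO F) (psC_one piO F) (psC_mul piO F) (1 / 2) (by norm_num)
    norm_psC_le s (by linarith)).2
  have hq := (hasProd_Lf (psbC piO F) (psbC_one piO F) (psbC_mul piO F) (1 / 2) (by norm_num)
    norm_psbC_le s (by linarith)).2
  have hpq := hp.mul hq
  have he := hasProd_fac (E49 F) hs
  refine he.unique ?_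
  have e : (fun w : HeightOneSpectrum (𝓞 F) => fac (E49 F) w s) = fun w =>
      (1 - psC piO F w.asIdeal * (Ideal.absNorm w.asIdeal : ℂ) ^ (-s))⁻¹ *
      (1 - psbC piO F w.asIdeal * (Ideal.absNorm w.asIdeal : ℂ) ^ (-s))⁻¹ := by
    funext w
    rw [fac, nrm_eq]
    by_cases hv : algebraMap (𝓞 K) (𝓞 F) vp ∈ w.asIdeal
    · have hpi : up piO F ∈ w.asIdeal := by
        have h1 := piO_eq
        change algebraMap (𝓞 K) (𝓞 F) piO ∈ w.asIdeal
        rw [h1, map_mul]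
        exact Ideal.mul_mem_left _ _ hv
      rw [locPoly_bad w (tower_ram F h w hv), psbC, psC, ps_place_bad w hpi]
      simp
    · rw [(ps_place_good w hv (tower_res F h w)).2, mul_inv]
  rw [e]
  exact hpq

theorem vp_mem_iff (w : HeightOneSpectrum (𝓞 F)) : algebraMap (𝓞 K) (𝓞 F) vp ∈ w.asIdeal ↔
    algebraMap (𝓞 K) (𝓞 F) piO ∈ w.asIdeal := by
  constructor
  · intro hv
    rw [piO_eq, map_mul]
    exact Ideal.mul_mem_left _ _ hv
  · intro hv
    rw [vp_eq, map_mul]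
    exact Ideal.mul_mem_left _ _ hv

/-- The Euler factors of `E49` at the places prime to `ω - 2`. -/
theorem place_E49 (h : TowerK3 F) (w : HeightOneSpectrum (𝓞 F))
    (hv : algebraMap (𝓞 K) (𝓞 F) piO ∉ w.asIdeal) (x : ℂ) :
    aeval x (locPoly (E49 F) w) =
      (1 - psC piO F w.asIdeal * x) * (1 - psbC piO F w.asIdeal * x) :=
  (ps_place_good w (fun h1 => hv ((vp_mem_iff w).1 h1)) (tower_res F h w)).2 x

/-- The local polynomial at the places above `ω - 2`. -/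
theorem bad_E49 (h : TowerK3 F) (w : HeightOneSpectrum (𝓞 F))
    (hv : algebraMap (𝓞 K) (𝓞 F) piO ∈ w.asIdeal) : locPoly (E49 F) w = 1 :=
  locPoly_bad w (tower_ram F h w ((vp_mem_iff w).2 hv))

end

end Pool.Agent.Lib.MP_1a91b9_ntT3.EF
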