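import Pool.Agent.Lib.MP_1a91b9_ntT3.EF.Jac

/-!
# EF: the cubic symbol of `1 + 3 ω` at the places of `F`
-/

set_option autoImplicit false

namespace Pool.Agent.Lib.MP_1a91b9_ntT3.EF

open NumberField IsDedekindDomain Polynomial Pool.Agent.Lib.MP_1a91b9_nt
open Pool.Agent.Lib.MP_1a91b9_ntT Pool.Agent.Lib.MP_1a91b9_ntT.S4

/-- The conjugate prime. -/
noncomputable def vp' : 𝓞 K := -2 - 3 * MP_1a91b9_ntT3.omO

theorem vp_mul : vp * vp' = 7 := by
  unfold vp vp'
  linear_combination -9 * EF.omO_eq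

theorem absNorm_vp : Ideal.absNorm (Ideal.span {vp}) = 7 := by
  obtain ⟨σ, hσ⟩ := u4_conj MP_1a91b9_ntT3.omO EF.omO_eq
  have hσv : σ vp = vp' := by
    unfold vp vp'
    rw [map_add, map_mul, map_one, map_ofNat, hσ]
    ring
  have e1 : Ideal.absNorm (Ideal.span {vp'}) = Ideal.absNorm (Ideal.span {vp}) := by
    rw [Ideal.absNorm_span_singleton, Ideal.absNorm_span_singleton, ← hσv]
    congr 1
    let σ' : 𝓞 K ≃ₐ[ℤ] 𝓞 K := AlgEquiv.ofRingEquiv (f := σ) (fun n => by simp)
    exact Algebra.norm_eq_of_algEquiv σ' vp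
  have e2 : Ideal.absNorm (Ideal.span {vp}) * Ideal.absNorm (Ideal.span {vp'}) = 7 ^ 2 := by
    rw [← map_mul, Ideal.span_singleton_mul_span_singleton, vp_mul]
    have := u4_absNorm_p (K := K) 7
    rwa [Nat.cast_ofNat] at this
  rw [e1, ← pow_two] at e2
  exact (Nat.pow_left_injective (n := 2) (by norm_num)) e2

theorem vp_prime_ideal : (Ideal.span {vp}).IsPrime := by
  refine Ideal.isPrime_of_irreducible_absNorm ?_
  rw [absNorm_vp]
  exact (Nat.prime_iff.mp (by norm_num : Nat.Prime 7)).irreducible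

theorem vp_ne_zero : vp ≠ 0 := by
  intro h
  have := absNorm_vp
  rw [h, Ideal.span_singleton_eq_bot.mpr rfl, Ideal.absNorm_bot] at this
  norm_num at this

/-- The place of `1 + 3 ω`. -/
noncomputable def w7 : HeightOneSpectrum (𝓞 K) :=
  ⟨Ideal.span {vp}, vp_prime_ideal, by rw [Ne, Ideal.span_singleton_eq_bot]; exact vp_ne_zero⟩

theorem nrm_w7 : nrm w7 = 7 := by
  rw [nrm_eq]
  exact absNorm_vp

theorem mem_w7 (x : 𝓞 K) : x ∈ w7.asIdeal ↔ vp ∣ x := Ideal.mem_span_singleton

theorem three_notMem_w7 : (3 : 𝓞 K) ∉ w7.asIdeal := by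
  intro h
  rw [mem_w7] at h
  have h7 : vp ∣ 7 := ⟨vp', vp_mul.symm⟩
  have h1 : vp ∣ 1 := by
    have e : (1 : 𝓞 K) = 7 - 2 * 3 := by norm_num
    rw [e]
    exact dvd_sub h7 (Dvd.dvd.mul_left h _)
  have := absNorm_vp
  rw [Ideal.span_singleton_eq_top.mpr (isUnit_of_dvd_one h1), Ideal.absNorm_top] at this
  norm_num at this

theorem red_w7 (x y : 𝓞 K) (h : redMap K w7 x = redMap K w7 y) : vp ∣ x - y := by
  rw [← mem_w7]
  have h1 : x - y ∈ RingHom.ker (redMap K w7) := by
    rw [RingHom.mem_ker, map_sub, h, sub_self]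
  rw [redMap_ker] at h1
  exact h1

/-- The Jacobi sum at `w7`. -/
theorem jac_w7 [Fintype (Rk w7)] (m : ℕ) (χ : MulChar (Rk w7) (𝓞 K)) (h : JacData w7 m χ) :
    jacobiSum χ χ = -vp := by
  have h0 := u4_jacobi_zero (redMap K w7) χ m h.card h.red
  obtain ⟨c, hc⟩ : vp ∣ jacobiSum χ χ := by
    have h1 := red_w7 (jacobiSum χ χ) 0 (by rw [h0, map_zero])
    rwa [sub_zero] at h1
  obtain ⟨σ, hσ⟩ := u4_conj MP_1a91b9_ntT3.omO EF.omO_eq
  have hσv : σ vp = vp' := by
    unfold vp vp'
    rw [map_add, map_mul, map_one, map_ofNat, hσ]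
    ring
  have hσJ : σ (jacobiSum χ χ) = jacobiSum (χ ^ 2) (χ ^ 2) := by
    have h2 := u4_jac_conj MP_1a91b9_ntT3.omO EF.omO_eq χ h.val σ.toRingHom (RingHom.id _)
      (by simpa using hσ)
    simpa using h2
  have h3 := h.mul
  rw [← hσJ, hc, map_mul, hσv, nrm_w7] at h3
  have h4 : (7 : 𝓞 K) * (c * σ c) = 7 * 1 := by
    rw [mul_one, ← vp_mul]
    have h5 : vp * c * (vp' * σ c) = ((7 : ℕ) : 𝓞 K) := h3
    rw [Nat.cast_ofNat, ← vp_mul] at h5
    linear_combination h5
  have h5 : c * σ c = 1 := mul_left_cancel₀ (by norm_num) h4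
  have h6 := unit_eq_one ⟨-c, -σ c, by rw [neg_mul_neg]; exact h5, by
    rw [neg_mul_neg, mul_comm]; exact h5⟩ (by
    change (3 : 𝓞 K) ∣ -c - 1
    have h7 := h.mod
    rw [hc] at h7
    have e : -c - 1 = (-(vp * c) - 1) - (3 * MP_1a91b9_ntT3.omO) * (-c) := by
      unfold vp
      ring
    rw [e]
    exact dvd_sub h7 (Dvd.dvd.mul_right (Dvd.intro _ rfl) _))
  have h7 : -c = 1 := congrArg Units.val h6
  rw [hc]
  linear_combination (-vp) * h7

theorem ringChar_w7 : ringChar (Rk w7) = 7 := by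
  have h : (7 : Rk w7) = 0 := by
    have h1 : (7 : 𝓞 K) ∈ RingHom.ker (redMap K w7) := by
      rw [redMap_ker]
      exact (mem_w7 7).2 ⟨vp', vp_mul.symm⟩
    rw [RingHom.mem_ker, map_ofNat] at h1
    exact h1
  have h2 : ringChar (Rk w7) ∣ 7 := ringChar.dvd (by exact_mod_cast h)
  rcases (Nat.dvd_prime (by norm_num)).1 h2 with h3 | h3
  · exfalso
    have : CharP (Rk w7) 1 := by rw [← h3]; exact ringChar.charP _
    exact CharP.char_ne_one (Rk w7) 1 rfl
  · exact h3

section
variable {F : Type*} [Field F] [NumberField F] [Algebra K F]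

/-- The cubic symbol of `1 + 3 ω` at `w`, by cubic reciprocity. -/
theorem cubic_vp (w : HeightOneSpectrum (𝓞 F)) (h3 : (3 : 𝓞 F) ∉ w.asIdeal)
    (hv : algebraMap (𝓞 K) (𝓞 F) vp ∉ w.asIdeal) [Fintype (Rk w)] (m : ℕ)
    (χ : MulChar (Rk w) (𝓞 K)) (h : JacData w m χ) :
    vp ∣ χ (redMap K w vp) - jacobiSum χ χ ^ 2 := by
  have h3k := three_ne_zero_of w h3
  by_cases hch : ringChar (Rk w) = 7
  · -- a place above the conjugate prime
    have h7 : (7 : Rk w) = 0 := by
      have : CharP (Rk w) 7 := by rw [← hch]; exact ringChar.charP _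
      exact_mod_cast CharP.cast_eq_zero (Rk w) 7
    have h8 : redMap K w vp * redMap K w vp' = 0 := by
      rw [← map_mul, vp_mul, map_ofNat]
      exact h7
    have hvp0 : redMap K w vp ≠ 0 := by
      intro h9
      apply hv
      have h10 : vp ∈ RingHom.ker (redMap K w) := h9
      rw [redMap_ker] at h10
      exact h10
    have hvp'0 : redMap K w vp' = 0 := (mul_eq_zero.1 h8).resolve_left hvp0
    have h9 : redMap K w vp = -1 := by
      have e : vp = -1 - vp' := by unfold vp vp'; ring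
      rw [e, map_sub, hvp'0, sub_zero, map_neg, map_one]
    rw [h9, cubic_neg_one χ h.cube]
    -- the Jacobi sum
    have hspan := h.span
    set P := w.asIdeal.under (𝓞 K) with hP
    have hvpP : vp' ∈ P := by
      have : vp' ∈ RingHom.ker (redMap K w) := hvp'0
      rw [redMap_ker] at this
      exact this
    have hPprime : P.IsPrime := inferInstance
    have hspanP : (Ideal.span {vp'}).IsPrime := by
      refine Ideal.isPrime_of_irreducible_absNorm ?_
      obtain ⟨σ, hσ⟩ := u4_conj MP_1a91b9_ntT3.omO EF.omO_eq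
      have hσv : σ vp = vp' := by
        unfold vp vp'
        rw [map_add, map_mul, map_one, map_ofNat, hσ]
        ring
      have e1 : Ideal.absNorm (Ideal.span {vp'}) = Ideal.absNorm (Ideal.span {vp}) := by
        rw [Ideal.absNorm_span_singleton, Ideal.absNorm_span_singleton, ← hσv]
        congr 1
        let σ' : 𝓞 K ≃ₐ[ℤ] 𝓞 K := AlgEquiv.ofRingEquiv (f := σ) (fun n => by simp)
        exact Algebra.norm_eq_of_algEquiv σ' vp
      rw [e1, absNorm_vp]
      exact (Nat.prime_iff.mp (by norm_num : Nat.Prime 7)).irreducible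
    have hvp'ne : vp' ≠ 0 := by
      intro h
      have := vp_mul
      rw [h, mul_zero] at this
      norm_num at this
    have hmax : (Ideal.span {vp'}).IsMaximal := hspanP.isMaximal (by
      rw [Ne, Ideal.span_singleton_eq_bot]
      exact hvp'ne)
    have hPe : P = Ideal.span {vp'} :=
      (hmax.eq_of_le hPprime.ne_top ((Ideal.span_singleton_le_iff_mem _).2 hvpP)).symm
    have hPmax : P.IsMaximal := by rw [hPe]; exact hmax
    have hlo : w.asIdeal.LiesOver P := ⟨rfl⟩
    have hwmax : w.asIdeal.IsMaximal := w.isMaximal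
    have hrel : Ideal.relNorm (𝓞 K) w.asIdeal = P ^ w.asIdeal.inertiaDeg (𝓞 K) :=
      Ideal.relNorm_eq_pow_of_isMaximal w.asIdeal P
    set f := w.asIdeal.inertiaDeg (𝓞 K)
    rw [hrel, hPe, Ideal.span_singleton_pow] at hspan
    have h10 : -jacobiSum χ χ = vp' ^ f := by
      refine psiK_unique _ _ h.mod ?_ hspan
      have h11 : (3 : 𝓞 K) ∣ vp' - 1 := ⟨-1 - MP_1a91b9_ntT3.omO, by unfold vp'; ring⟩
      have h12 := sub_dvd_pow_sub_pow vp' 1 f
      rw [one_pow] at h12
      exact h11.trans h12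
    have h13 : vp ∣ vp' + 1 := ⟨-1, by unfold vp vp'; ring⟩
    have e : 1 - jacobiSum χ χ ^ 2 = -((vp' ^ 2) ^ f - 1) := by
      rw [← pow_mul, mul_comm 2 f, pow_mul, ← h10]
      ring
    rw [e, dvd_neg]
    have h14 := sub_dvd_pow_sub_pow (vp' ^ 2) 1 f
    rw [one_pow] at h14
    refine (h13.trans ?_).trans h14
    exact ⟨vp' - 1, by ring⟩
  · have hfin7 : Finite (Rk w7) := finite_residue w7
    have := Fintype.ofFinite (Rk w7)
    obtain ⟨m', χ', h'⟩ := exists_jac w7 three_notMem_w7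
    have hcard7 : Fintype.card (Rk w7) = 7 := by
      rw [← nrm_w7, nrm, Nat.card_eq_fintype_card]
    have hm' : m' = 2 := by
      have := h'.card
      rw [hcard7] at this
      omega
    have key := cubic_rec (A := 𝓞 K) (k := Rk w) (k' := Rk w7)
      (by rw [ringChar_w7]; exact hch) (redMap K w) (redMap K w7) MP_1a91b9_ntT3.omO EF.omO_eq
      h3k (three_ne_zero_of w7 three_notMem_w7) m h.card m' h'.card χ h.cube h.ne h.red h.val
      χ' h'.cube h'.ne h'.red h'.val
    rw [jac_w7 m' χ' h', map_neg] at key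
    have e1 : χ (-redMap K w vp) = χ (redMap K w vp) := by
      have : -redMap K w vp = (-1) * redMap K w vp := by ring
      rw [this, map_mul, cubic_neg_one χ h.cube, one_mul]
    rw [e1] at key
    apply red_w7
    rw [key, h'.red, hm', map_pow]

end

end Pool.Agent.Lib.MP_1a91b9_ntT3.EF
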