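import Pool.Agent.Lib.MP_1a91b9_ntT3.Base
import Pool.Agent.Lib.MP_1a91b9_ntT.S4.LProd

/-!
# EF: the Euler factors of `E49`, definitions
-/

set_option autoImplicit false

namespace Pool.Agent.Lib.MP_1a91b9_ntT3.EF

open NumberField IsDedekindDomain Polynomial Pool.Agent.Lib.MP_1a91b9_nt
open Pool.Agent.Lib.MP_1a91b9_ntT

/-- The integral model of `E49`. -/
def W49 {A : Type*} [CommRing A] (w : A) : WeierstrassCurve A := ⟨0, 1 + 2 * w, w, -1, 0⟩

theorem W49_map {A B : Type*} [CommRing A] [CommRing B] (f : A →+* B) (w : A) :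
    (W49 w).map f = W49 (f w) := by
  have h2 : f (1 + 2 * w) = 1 + 2 * f w := by rw [map_add, map_mul, map_one, map_ofNat]
  ext
  · exact map_zero f
  · exact h2
  · rfl
  · change f (-1) = -1
    rw [map_neg, map_one]
  · exact map_zero f

theorem W49_delta {A : Type*} [CommRing A] (w : A) (h : w ^ 2 + w + 1 = 0) :
    (W49 w).Δ = (1 + 3 * w) ^ 2 := by
  simp only [W49, WeierstrassCurve.Δ, WeierstrassCurve.b₂, WeierstrassCurve.b₄,
    WeierstrassCurve.b₆, WeierstrassCurve.b₈]
  linear_combination (79 - 21 * w - 91 * w ^ 2 - 128 * w ^ 3) * h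

theorem W49_c₄ {A : Type*} [CommRing A] (w : A) (h : w ^ 2 + w + 1 = 0) :
    (W49 w).c₄ = 0 := by
  simp only [W49, WeierstrassCurve.c₄, WeierstrassCurve.b₂, WeierstrassCurve.b₄]
  linear_combination 64 * h

theorem omO_eq : omO ^ 2 + omO + 1 = 0 := S4.omO_eq

theorem omO_coe : (omO : K) = om := rfl

theorem omO_S4 : S4.omO = omO := rfl

theorem E49_eq (F : Type*) [Field F] [Algebra K F] : E49 F = W49 (algebraMap K F om) := by
  have h2 : algebraMap K F (1 + 2 * om) = 1 + 2 * algebraMap K F om := by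
    rw [map_add, map_mul, map_one, map_ofNat]
  ext
  · rfl
  · exact h2
  · rfl
  · rfl
  · rfl

/-- `√-3`. -/
noncomputable def lam : 𝓞 K := 1 + 2 * omO

/-- The prime `1 + 3 ω` of norm `7`. -/
noncomputable def vp : 𝓞 K := 1 + 3 * omO

theorem lam_sq : lam ^ 2 = -3 := by
  unfold lam
  linear_combination 4 * omO_eq

theorem vp_eq : vp = -omO * piO := by
  unfold vp piO
  linear_combination omO_eq

theorem piO_eq : piO = -omO ^ 2 * vp := by
  have h : omO ^ 3 = 1 := by linear_combination (omO - 1) * omO_eq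
  unfold vp piO
  linear_combination (3 : 𝓞 K) * h + omO_eq

theorem associated_vp : Associated vp piO := by
  have h : omO ^ 3 = 1 := by linear_combination (omO - 1) * omO_eq
  refine ⟨⟨-omO ^ 2, -omO, by linear_combination h, by linear_combination h⟩, ?_⟩
  change vp * (-omO ^ 2) = piO
  rw [piO_eq]
  ring

theorem vp_dvd_iff (x : 𝓞 K) : vp ∣ x ↔ piO ∣ x := associated_vp.dvd_iff_dvd_left

section
variable {F : Type*} [Field F] [NumberField F] [Algebra K F]

/-- The image of `ω` in the residue field. -/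
noncomputable def wr (w : HeightOneSpectrum (𝓞 F)) :
    IsLocalRing.ResidueField (w.adicCompletionIntegers F) := redMap K w omO

/-- The local polynomial of `E49` away from `1 + 3 ω`. -/
theorem locPoly_good (w : HeightOneSpectrum (𝓞 F))
    (hv : algebraMap (𝓞 K) (𝓞 F) vp ∉ w.asIdeal) :
    locPoly (E49 F) w = 1 - Polynomial.C ((nrm w : ℤ) + 1 -
      Nat.card (W49 (redMap K w omO)).toAffine.Point) * X + Polynomial.C (nrm w : ℤ) * X ^ 2 := by
  have homF : (algebraMap (𝓞 K) (𝓞 F) omO) ^ 2 + algebraMap (𝓞 K) (𝓞 F) omO + 1 = 0 := by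
    rw [← map_pow, ← map_add, ← map_one (algebraMap (𝓞 K) (𝓞 F)), ← map_add, omO_eq, map_zero]
  have hmodel : locPoly ((E49 F).baseChange F) w = _ :=
    locPoly_of_model (F := F) (K := F) (E49 F) 1 (W49 (algebraMap (𝓞 K) (𝓞 F) omO)) (by
      rw [one_smul, W49_map, E49_eq]
      rfl) w (by
      rw [W49_delta _ homF]
      intro hmem
      apply hv
      have h1 : (1 + 3 * algebraMap (𝓞 K) (𝓞 F) omO) ^ 2 ∈ w.asIdeal := hmem
      have h2 := w.isPrime.mem_of_pow_mem 2 h1
      unfold vp
      rw [map_add, map_mul, map_one, map_ofNat]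
      exact h2)
  have hbc : (E49 F).baseChange F = E49 F := WeierstrassCurve.map_id _
  rw [hbc, W49_map] at hmodel
  exact hmodel

end

end Pool.Agent.Lib.MP_1a91b9_ntT3.EF
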