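import Mathlib

/-!
# EF: the cubic Gauss sum identity and cubic reciprocity for finite fields
-/

set_option autoImplicit false

namespace Pool.Agent.Lib.MP_1a91b9_ntT3.EF

open Finset AddChar MulChar

section
variable {k k' : Type*} [Field k] [Fintype k] [Field k'] [Fintype k']

theorem gaussSum_frob_iter' {R : Type*} [CommRing R] [Fintype R] {R' : Type*} [CommRing R']
    (p : ℕ) [fp : Fact p.Prime] [hch : CharP R' p] (χ : MulChar R R') (ψ : AddChar R R') (n : ℕ) :
    gaussSum χ ψ ^ p ^ n = gaussSum (χ ^ p ^ n) (ψ ^ p ^ n) := by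
  induction n with
  | zero => rw [pow_zero, pow_one, pow_one, pow_one]
  | succ n ih => rw [pow_succ, pow_mul, ih, gaussSum_frob, ← pow_mul, ← pow_mul]

theorem cubic_neg_one {k R : Type*} [Field k] [CommRing R] (χ : MulChar k R)
    (hχ3 : χ ^ 3 = 1) : χ (-1) = 1 := by
  have h : χ (-1) ^ 3 = 1 := by
    rw [← MulChar.pow_apply' _ (by norm_num), hχ3, MulChar.one_apply isUnit_one.neg]
  have h2 : χ (-1) ^ 2 = 1 := by
    rw [← map_pow]
    have : ((-1 : k) ^ 2) = 1 := by ring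
    rw [this, map_one]
  calc χ (-1) = χ (-1) ^ 3 * 1 := by rw [mul_one, pow_succ, h2, one_mul]
    _ = 1 := by rw [h, one_mul]

/-- The cube of a cubic Gauss sum. -/
theorem gaussSum_cube {R : Type*} [CommRing R] [IsDomain R] (χ : MulChar k' R) (hχ1 : χ ≠ 1)
    (hχ3 : χ ^ 3 = 1) (ψ : AddChar k' R) (hψ : ψ.IsPrimitive) :
    gaussSum χ ψ ^ 3 = (Fintype.card k' : R) * jacobiSum χ χ := by
  have hord : orderOf χ = 3 := orderOf_eq_prime hχ3 hχ1
  have h := gaussSum_pow_eq_prod_jacobiSum (χ := χ) (ψ := ψ) (by rw [hord]; norm_num) hψ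
  rw [hord, cubic_neg_one χ hχ3, one_mul] at h
  rw [h]
  norm_num

/-- The Gauss sum identity in the field of values. -/
theorem gauss_aux (hch : ringChar k ≠ ringChar k') (χ : MulChar k' k) (hχ1 : χ ≠ 1)
    (hχ3 : χ ^ 3 = 1) (m : ℕ) (hq : Fintype.card k - 1 = 3 * m) :
    ((Fintype.card k' : k) * jacobiSum χ χ) ^ m * χ (Fintype.card k : k') = 1 := by
  obtain ⟨n, hp, hc⟩ := FiniteField.card k' (ringChar k')
  obtain ⟨n', hp', hc'⟩ := FiniteField.card k (ringChar k)
  let ψ := FiniteField.primitiveChar k' k hch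
  let FF := CyclotomicField ψ.n k
  have hchar := Algebra.ringChar_eq k FF
  set i : k →+* FF := algebraMap k FF with hi
  have hinj : Function.Injective i := i.injective
  apply hinj
  set χ₁ := χ.ringHomComp i with hχ₁
  have h11 : χ₁ ≠ 1 := by
    rw [hχ₁, Ne, MulChar.ringHomComp_eq_one_iff hinj]
    exact hχ1
  have h13 : χ₁ ^ 3 = 1 := by
    rw [hχ₁, MulChar.ringHomComp_pow, hχ3, MulChar.ringHomComp_one]
  have hf' : Fact (ringChar k).Prime := ⟨hp'⟩
  have hcp : CharP FF (ringChar k) := by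
    rw [hchar]
    exact ringChar.charP FF
  have hcardpos : 0 < Fintype.card k := Fintype.card_pos
  have hq' : Fintype.card k = 3 * m + 1 := by omega
  set G := gaussSum χ₁ ψ.char with hG
  have hG3 : G ^ 3 = (Fintype.card k' : FF) * jacobiSum χ₁ χ₁ :=
    gaussSum_cube χ₁ h11 h13 ψ.char ψ.prim
  have hunit : IsUnit ((Fintype.card k : ℕ) : k') := by
    rw [isUnit_iff_ne_zero, Ne, CharP.cast_eq_zero_iff k' (ringChar k'), hc']
    intro hdvd
    have h1 := hp.dvd_of_dvd_pow hdvd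
    rw [Nat.prime_dvd_prime_iff_eq hp hp'] at h1
    exact hch h1.symm
  have hGq : χ₁ (Fintype.card k : k') * G ^ Fintype.card k = G := by
    have h1 : G ^ Fintype.card k = gaussSum (χ₁ ^ Fintype.card k) (ψ.char ^ Fintype.card k) := by
      rw [hc']
      exact gaussSum_frob_iter' (ringChar k) χ₁ ψ.char n'
    have h2 : χ₁ ^ Fintype.card k = χ₁ := by
      rw [hq', pow_succ, pow_mul, h13, one_pow, one_mul]
    rw [h1, h2, pow_mulShift]
    have h3 := gaussSum_mulShift χ₁ ψ.char hunit.unit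
    rw [hunit.unit_spec] at h3
    exact h3
  have hG0 : G ≠ 0 := by
    refine gaussSum_ne_zero_of_nontrivial ?_ h11 ψ.prim
    rw [Ne, CharP.cast_eq_zero_iff FF (ringChar k), hc]
    intro hdvd
    have h1 := hp'.dvd_of_dvd_pow hdvd
    rw [Nat.prime_dvd_prime_iff_eq hp' hp] at h1
    exact hch h1
  have hfin : (χ₁ (Fintype.card k : k') * (G ^ 3) ^ m) * G = 1 * G := by
    rw [one_mul, mul_assoc, ← pow_mul, ← pow_succ, ← hq']
    exact hGq
  have h4 := mul_right_cancel₀ hG0 hfin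
  rw [hG3] at h4
  rw [map_mul, map_pow, map_mul, map_natCast, map_one, ← jacobiSum_ringHomComp, mul_comm]
  exact h4

end

section
variable {A k k' : Type*} [CommRing A] [IsDomain A] [Field k] [Fintype k] [Field k'] [Fintype k']

omit [IsDomain A] [Fintype k] in
/-- Values of a cubic character and their reduction. -/
theorem cubic_eq_of_red (ρ : A →+* k) (ω : A) (hω : ω ^ 2 + ω + 1 = 0) (h3 : (3 : k) ≠ 0)
    (a b : A) (ha : a = 1 ∨ a = ω ∨ a = ω ^ 2) (hb : b = 1 ∨ b = ω ∨ b = ω ^ 2)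
    (h : ρ a = ρ b) : a = b := by
  set w : k := ρ ω with hw
  have hw2 : w ^ 2 + w + 1 = 0 := by
    rw [hw, ← map_pow, ← map_add, ← map_one ρ, ← map_add, hω, map_zero]
  have hw3 : w ^ 3 = 1 := by linear_combination (w - 1) * hw2
  have hw1 : w ≠ 1 := by
    intro h
    rw [h] at hw2
    apply h3
    linear_combination hw2
  have hw0 : w ≠ 0 := by
    intro h
    rw [h] at hw3
    simp at hw3
  have hwsq : w ^ 2 ≠ 1 := by
    intro h
    apply hw1
    have : w ^ 3 = w := by rw [pow_succ, h, one_mul]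
    rw [← this, hw3]
  have hwne : w ^ 2 ≠ w := by
    intro h
    apply hw1
    have h1 : w * w = w * 1 := by rw [mul_one, ← pow_two]; exact h
    exact mul_left_cancel₀ hw0 h1
  rcases ha with rfl | rfl | rfl <;> rcases hb with rfl | rfl | rfl
  · rfl
  · rw [map_one] at h; exact absurd h.symm hw1
  · rw [map_one, map_pow] at h; exact absurd h.symm hwsq
  · rw [map_one] at h; exact absurd h hw1
  · rfl
  · rw [map_pow] at h; exact absurd h.symm hwne
  · rw [map_one, map_pow] at h; exact absurd h hwsq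
  · rw [map_pow] at h; exact absurd h hwne
  · rfl

/-- The Gauss sum identity with values in a ring. -/
theorem gauss_iden (hch : ringChar k ≠ ringChar k') (ρ : A →+* k) (ω : A)
    (hω : ω ^ 2 + ω + 1 = 0) (h3 : (3 : k) ≠ 0) (m : ℕ) (hq : Fintype.card k - 1 = 3 * m)
    (χ : MulChar k A) (hχρ : ∀ x, ρ (χ x) = x ^ m)
    (hχv : ∀ x : k, x ≠ 0 → χ x = 1 ∨ χ x = ω ∨ χ x = ω ^ 2)
    (χ' : MulChar k' A) (h31 : χ' ^ 3 = 1) (h11 : χ' ≠ 1)
    (hχv' : ∀ x : k', x ≠ 0 → χ' x = 1 ∨ χ' x = ω ∨ χ' x = ω ^ 2) :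
    χ ((Fintype.card k' : k) * ρ (jacobiSum χ' χ')) * χ' (Fintype.card k : k') = 1 := by
  have hω3 : ω ^ 3 = 1 := by linear_combination (ω - 1) * hω
  have h1 : χ'.ringHomComp ρ ≠ 1 := by
    intro h
    apply h11
    refine MulChar.ext fun u => ?_
    rw [MulChar.one_apply_coe]
    refine cubic_eq_of_red ρ ω hω h3 _ _ (hχv' u u.ne_zero) (Or.inl rfl) ?_
    have h2 := congrArg (fun φ : MulChar k' k => φ (u : k')) h
    simp only [MulChar.one_apply_coe] at h2
    rw [map_one]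
    exact h2
  have h2 : (χ'.ringHomComp ρ) ^ 3 = 1 := by
    rw [MulChar.ringHomComp_pow, h31, MulChar.ringHomComp_one]
  have h4 := gauss_aux hch (χ'.ringHomComp ρ) h1 h2 m hq
  rw [jacobiSum_ringHomComp, ← hχρ] at h4
  have h5 : (χ'.ringHomComp ρ) (Fintype.card k : k') = ρ (χ' (Fintype.card k : k')) := rfl
  rw [h5, ← map_mul] at h4
  have hne1 : (Fintype.card k' : k) * ρ (jacobiSum χ' χ') ≠ 0 := by
    intro h
    rw [h, MulChar.map_zero, zero_mul, map_zero] at h4
    exact zero_ne_one h4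
  have hne2 : (Fintype.card k : k') ≠ 0 := by
    intro h
    rw [h, MulChar.map_zero, mul_zero, map_zero] at h4
    exact zero_ne_one h4
  refine cubic_eq_of_red ρ ω hω h3 _ _ ?_ (Or.inl rfl) (by rw [h4, map_one])
  have e4 : ω * ω ^ 2 = 1 := by rw [← pow_succ']; exact hω3
  have e5 : ω ^ 2 * ω = 1 := by rw [← pow_succ]; exact hω3
  have e6 : ω ^ 2 * ω ^ 2 = ω := by linear_combination ω * hω3
  rcases hχv _ hne1 with h6 | h6 | h6 <;> rcases hχv' _ hne2 with h7 | h7 | h7 <;>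
    rw [h6, h7]
  · left; rw [mul_one]
  · right; left; rw [one_mul]
  · right; right; rw [one_mul]
  · right; left; rw [mul_one]
  · right; right; rw [pow_two]
  · left; exact e4
  · right; right; rw [mul_one]
  · left; exact e5
  · right; left; exact e6

/-- **Cubic reciprocity** for the Jacobi sums of two finite fields. -/
theorem cubic_rec (hch : ringChar k ≠ ringChar k') (ρ : A →+* k) (ρ' : A →+* k') (ω : A)
    (hω : ω ^ 2 + ω + 1 = 0) (h3 : (3 : k) ≠ 0) (h3' : (3 : k') ≠ 0)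
    (m : ℕ) (hq : Fintype.card k - 1 = 3 * m) (m' : ℕ) (hq' : Fintype.card k' - 1 = 3 * m')
    (χ : MulChar k A) (h13 : χ ^ 3 = 1) (h11 : χ ≠ 1) (hχρ : ∀ x, ρ (χ x) = x ^ m)
    (hχv : ∀ x : k, x ≠ 0 → χ x = 1 ∨ χ x = ω ∨ χ x = ω ^ 2)
    (χ' : MulChar k' A) (h13' : χ' ^ 3 = 1) (h11' : χ' ≠ 1) (hχρ' : ∀ x, ρ' (χ' x) = x ^ m')
    (hχv' : ∀ x : k', x ≠ 0 → χ' x = 1 ∨ χ' x = ω ∨ χ' x = ω ^ 2) :
    χ (ρ (jacobiSum χ' χ')) = χ' (ρ' (jacobiSum χ χ)) := by
  have h1 := gauss_iden hch ρ ω hω h3 m hq χ hχρ hχv χ' h13' h11' hχv'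
  have h2 := gauss_iden hch.symm ρ' ω hω h3' m' hq' χ' hχρ' hχv' χ h13 h11 hχv
  rw [map_mul] at h1 h2
  have h5 : χ (ρ (jacobiSum χ' χ')) * (χ (Fintype.card k' : k) * χ' (Fintype.card k : k')) = 1 := by
    rw [← h1]; ring
  have h6 : χ' (ρ' (jacobiSum χ χ)) * (χ (Fintype.card k' : k) * χ' (Fintype.card k : k')) = 1 := by
    rw [← h2]; ring
  have h7 : χ (Fintype.card k' : k) * χ' (Fintype.card k : k') ≠ 0 := by
    intro h
    rw [h, mul_zero] at h5
    exact zero_ne_one h5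
  exact mul_right_cancel₀ h7 (h5.trans h6.symm)

end

end Pool.Agent.Lib.MP_1a91b9_ntT3.EF
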