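import Pool.Agent.Lib.MP_1a91b9_ntT3.EF.Defs
import Pool.Agent.Lib.MP_1a91b9_ntT3.EF.Gauss

/-!
# EF: the cubic character and its Jacobi sum at the places not above `3`
-/

set_option autoImplicit false

namespace Pool.Agent.Lib.MP_1a91b9_ntT3.EF

open NumberField IsDedekindDomain Polynomial Pool.Agent.Lib.MP_1a91b9_nt
open Pool.Agent.Lib.MP_1a91b9_ntT Pool.Agent.Lib.MP_1a91b9_ntT.S4

section
variable {F : Type*} [Field F] [NumberField F] [Algebra K F]

/-- The embedding of the integers. -/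
noncomputable def emb : 𝓞 K →+* ℂ := embK.toRingHom.comp (algebraMap (𝓞 K) K)

theorem emb_apply (x : 𝓞 K) : emb x = embK (x : K) := rfl

theorem emb_injective : Function.Injective emb :=
  (embK.toRingHom.injective).comp RingOfIntegers.coe_injective

/-- The residue field. -/
abbrev Rk (w : HeightOneSpectrum (𝓞 F)) : Type _ :=
  IsLocalRing.ResidueField (w.adicCompletionIntegers F)

/-- The data at a place. -/
structure JacData (w : HeightOneSpectrum (𝓞 F))
    [Fintype (Rk w)] (m : ℕ) (χ : MulChar (Rk w) (𝓞 K)) : Prop where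
  card : Fintype.card (Rk w) - 1 = 3 * m
  cube : χ ^ 3 = 1
  ne : χ ≠ 1
  red : ∀ x, redMap K w (χ x) = x ^ m
  val : ∀ x, x ≠ 0 → χ x = 1 ∨ χ x = MP_1a91b9_ntT3.omO ∨ χ x = MP_1a91b9_ntT3.omO ^ 2
  mod : (3 : 𝓞 K) ∣ -jacobiSum χ χ - 1
  span : Ideal.span {-jacobiSum χ χ} = Ideal.relNorm (𝓞 K) w.asIdeal
  mul : jacobiSum χ χ * jacobiSum (χ ^ 2) (χ ^ 2) = (nrm w : 𝓞 K)
  conj : (starRingEnd ℂ) (emb (jacobiSum χ χ)) = emb (jacobiSum (χ ^ 2) (χ ^ 2))

theorem three_ne_zero_of (w : HeightOneSpectrum (𝓞 F)) (h3 : (3 : 𝓞 F) ∉ w.asIdeal) :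
    (3 : Rk w) ≠ 0 := by
  intro h
  have h4 : (3 : 𝓞 K) ∈ RingHom.ker (redMap K w) := by rw [RingHom.mem_ker, map_ofNat]; exact h
  rw [redMap_ker] at h4
  apply h3
  have h5 : algebraMap (𝓞 K) (𝓞 F) 3 ∈ w.asIdeal := h4
  rwa [map_ofNat] at h5

theorem exists_jac (w : HeightOneSpectrum (𝓞 F)) (h3 : (3 : 𝓞 F) ∉ w.asIdeal)
    [Fintype (Rk w)] :
    ∃ m χ, JacData w m χ := by
  classical
  have hfin : Finite (Rk w) := finite_residue w
  set ρ : 𝓞 K →+* Rk w := redMap K w with hρ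
  have hker : RingHom.ker ρ = w.asIdeal.under (𝓞 K) := redMap_ker w
  have hcard : Fintype.card (Rk w) = nrm w := by rw [nrm, Nat.card_eq_fintype_card]
  -- `3` is not zero in `k`
  have h3k : (3 : Rk w) ≠ 0 := three_ne_zero_of w h3
  -- the characteristic
  obtain ⟨p, hpchar⟩ := CharP.exists (Rk w)
  have hpp : Fact p.Prime := ⟨(CharP.char_is_prime_or_zero (Rk w) p).resolve_right
    (CharP.char_ne_zero_of_finite (Rk w) p)⟩
  have hp3 : p ≠ 3 := by
    rintro rfl
    exact h3k (by exact_mod_cast CharP.cast_eq_zero (Rk w) 3)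
  -- divisibility of `q - 1`
  have hdvd : 3 ∣ nrm w - 1 := by
    refine u4_three_dvd w h3 (algebraMap (𝓞 K) (𝓞 F) S4.omO) ?_
    rw [← map_pow, ← map_add, ← map_one (algebraMap (𝓞 K) (𝓞 F)), ← map_add, S4.omO_eq, map_zero]
  obtain ⟨m, hm⟩ := hdvd
  have hq : Fintype.card (Rk w) - 1 = 3 * m := by rw [hcard, hm]
  obtain ⟨χ, hχ3, hχ1, hχρ, hχv⟩ := u4_exists_char ρ S4.omO S4.omO_eq h3k m hq
  set J := jacobiSum χ χ with hJ
  set J' := jacobiSum (χ ^ 2) (χ ^ 2) with hJ'
  have hJJ : J * J' = (nrm w : 𝓞 K) := by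
    rw [← hcard]
    exact u4_jac_mul p χ hχ3 hχ1
  have hnpos : 0 < nrm w := by rw [← hcard]; exact Fintype.card_pos
  have hJ0 : J ≠ 0 := by
    intro h
    rw [h, zero_mul] at hJJ
    exact hnpos.ne' (by exact_mod_cast hJJ.symm)
  -- embedding
  set τ : 𝓞 K →+* ℂ := emb with hτ
  have hτa : ∀ x : 𝓞 K, τ x = embK (x : K) := fun _ => rfl
  have hconj : (starRingEnd ℂ) (τ J) = τ J' := by
    have h := u4_jac_conj S4.omO S4.omO_eq χ hχv ((starRingEnd ℂ).comp τ) τ (by
      rw [RingHom.comp_apply, hτa, embK_omO, conj_zt, map_sub, map_neg, map_one, hτa, embK_omO])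
    exact h
  refine ⟨m, χ, hq, hχ3, hχ1, hχρ, hχv, ?_, ?_, hJJ, hconj⟩
  · have h := u4_jac_mod S4.omO S4.omO_eq χ hχ3 (by rw [hq]; exact Dvd.intro _ rfl)
    have e : -J - 1 = -(J + 1) := by ring
    rw [e]
    exact (dvd_neg).mpr h
  · -- the ideal
    obtain ⟨γ, hγ3, hγs, hγn, -⟩ := exists_psi w h3
    rw [← hγs]
    -- the ideal of `J`
    rw [Ideal.span_singleton_neg]
    rw [hγs]
    set P := RingHom.ker ρ with hP
    have hPprime : P.IsPrime := RingHom.ker_isPrime ρ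
    have hpP : (p : 𝓞 K) ∈ P := by
      rw [hP, RingHom.mem_ker, map_natCast]
      exact CharP.cast_eq_zero (Rk w) p
    have hPb : P ≠ ⊥ := by
      intro h
      rw [h] at hpP
      exact hpp.out.ne_zero (by exact_mod_cast (by simpa using hpP : (p : 𝓞 K) = 0))
    have hPmax : P.IsMaximal := Ideal.IsPrime.isMaximal inferInstance hPb
    have hlo : w.asIdeal.LiesOver P := ⟨hker⟩
    have hwmax : w.asIdeal.IsMaximal := w.isMaximal
    have hrel : Ideal.relNorm (𝓞 K) w.asIdeal = P ^ w.asIdeal.inertiaDeg (𝓞 K) :=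
      Ideal.relNorm_eq_pow_of_isMaximal w.asIdeal P
    rw [hrel]
    -- the power of `P`
    have hJspan : Ideal.span {J} ≠ ⊥ := by rw [Ne, Ideal.span_singleton_eq_bot]; exact hJ0
    have hfm : FiniteMultiplicity P (Ideal.span {J}) :=
      FiniteMultiplicity.of_prime_left (Ideal.prime_of_isPrime hPb hPprime) hJspan
    obtain ⟨I, hI, hPI⟩ := hfm.exists_eq_pow_mul_and_not_dvd
    have hItop : I = ⊤ := by
      by_contra hne
      obtain ⟨Q, hQm, hIQ⟩ := Ideal.exists_le_maximal I hne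
      have hJQ : J ∈ Q := by
        have h1 : Ideal.span {J} ≤ Q := by
          rw [hI]
          exact (Ideal.mul_le_right).trans hIQ
        exact h1 (Ideal.mem_span_singleton_self J)
      have hQp : Q.IsPrime := hQm.isPrime
      have := u4_jac_prime p hp3 S4.omO S4.omO_eq ρ χ hχ3 hχ1 hχv m hq hχρ Q hJQ
      apply hPI
      rw [Ideal.dvd_iff_le, hP, ← this]
      exact hIQ
    rw [hItop, Ideal.mul_top] at hI
    rw [hI]
    -- comparison of norms
    have hnJ : Ideal.absNorm (Ideal.span {J}) = nrm w := by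
      obtain ⟨σ, hσ⟩ := u4_conj S4.omO S4.omO_eq
      have hσJ : σ J = J' := by
        have h := u4_jac_conj S4.omO S4.omO_eq χ hχv σ.toRingHom (RingHom.id _) (by simpa using hσ)
        simpa using h
      have e1 : Ideal.absNorm (Ideal.span {J'}) = Ideal.absNorm (Ideal.span {J}) := by
        rw [Ideal.absNorm_span_singleton, Ideal.absNorm_span_singleton, ← hσJ]
        congr 1
        let σ' : 𝓞 K ≃ₐ[ℤ] 𝓞 K := AlgEquiv.ofRingEquiv (f := σ) (fun n => by simp)
        exact Algebra.norm_eq_of_algEquiv σ' J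
      have e2 : Ideal.absNorm (Ideal.span {J}) * Ideal.absNorm (Ideal.span {J'}) = nrm w ^ 2 := by
        rw [← map_mul, Ideal.span_singleton_mul_span_singleton, hJJ]
        exact u4_absNorm_p (nrm w)
      rw [e1, ← pow_two] at e2
      exact (Nat.pow_left_injective (n := 2) (by norm_num)) e2
    have hnP : nrm w = Ideal.absNorm P ^ w.asIdeal.inertiaDeg (𝓞 K) := by
      rw [nrm_eq, Ideal.absNorm_pow_inertiaDeg P w.asIdeal]
    have h1 : Ideal.absNorm P ^ multiplicity P (Ideal.span {J}) =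
        Ideal.absNorm P ^ w.asIdeal.inertiaDeg (𝓞 K) := by
      rw [← hnP, ← hnJ]
      conv_rhs => rw [hI]
      rw [map_pow]
    have hP2 : 2 ≤ Ideal.absNorm P := by
      have h0 : Ideal.absNorm P ≠ 0 := Ideal.absNorm_ne_zero_iff_mem_nonZeroDivisors.mpr
        (mem_nonZeroDivisors_iff_ne_zero.mpr hPb)
      have h1 : Ideal.absNorm P ≠ 1 := by
        rw [Ne, Ideal.absNorm_eq_one_iff]
        exact hPmax.ne_top
      omega
    rw [Nat.pow_right_injective hP2 h1]

end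

end Pool.Agent.Lib.MP_1a91b9_ntT3.EF
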